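import Pool.Agent.W619.PQ.Dual

/-!
Symmetric tensors on a rational surface: charts, regularity, and generation over the function field.
-/

set_option autoImplicit false
set_option linter.unusedSectionVars false

open Polynomial

namespace Pool.Agent.Helper11K9.TH

variable {K : Type} [Field K] [Algebra ℂ K]

/-- the symmetric tensors of degree `m` (as functions of `df`) -/
def Tens (K : Type) [Field K] [Algebra ℂ K] (m : ℕ) : Submodule K (K → K) :=
  Submodule.span K (Set.range fun (D : Fin m → Derivation ℂ K K) (f : K) => ∏ i, D i f)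

/-- the coordinate ring of the chart with coordinates `u`, `v` -/
def chart (u v : K) : Subalgebra ℂ K := Algebra.adjoin ℂ {u, v}

/-- `e S` is regular on the chart -/
def Reg (u v e : K) (S : K → K) : Prop := ∀ f ∈ chart u v, e * S f ∈ chart u v

theorem fst_mem (u v : K) : u ∈ chart u v := Algebra.subset_adjoin (by simp)
theorem snd_mem (u v : K) : v ∈ chart u v := Algebra.subset_adjoin (by simp)

theorem chart_le {u v : K} {R : Subalgebra ℂ K} (hu : u ∈ R) (hv : v ∈ R) : chart u v ≤ R := by
  refine Algebra.adjoin_le ?_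
  rintro z (rfl | rfl)
  · exact hu
  · exact hv

section reg

variable {u v : K}

theorem reg_add {e : K} {S T : K → K} (hS : Reg u v e S) (hT : Reg u v e T) :
    Reg u v e (S + T) := fun f hf => by
  rw [Pi.add_apply, mul_add]
  exact add_mem (hS f hf) (hT f hf)

theorem reg_neg {e : K} {S : K → K} (hS : Reg u v e S) : Reg u v e (-S) := fun f hf => by
  rw [Pi.neg_apply, mul_neg]
  exact neg_mem (hS f hf)

theorem reg_sub {e : K} {S T : K → K} (hS : Reg u v e S) (hT : Reg u v e T) :
    Reg u v e (S - T) := by
  rw [sub_eq_add_neg]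
  exact reg_add hS (reg_neg hT)

theorem reg_mul {e e' : K} {S T : K → K} (hS : Reg u v e S) (hT : Reg u v e' T) :
    Reg u v (e * e') (S * T) := fun f hf => by
  rw [Pi.mul_apply, mul_mul_mul_comm]
  exact mul_mem (hS f hf) (hT f hf)

theorem reg_one : Reg u v 1 (1 : K → K) := fun f _ => by
  rw [Pi.one_apply, mul_one]
  exact one_mem _

theorem reg_smul {e c d : K} {S : K → K} (hS : Reg u v e S) (h : c * d ∈ chart u v) :
    Reg u v (e * d) (c • S) := fun f hf => by
  have h1 : e * d * (c • S) f = (c * d) * (e * S f) := by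
    rw [Pi.smul_apply, smul_eq_mul]
    ring
  rw [h1]
  exact mul_mem h (hS f hf)

theorem reg_smul' {e c : K} {S : K → K} (hS : Reg u v e S) (h : c ∈ chart u v) :
    Reg u v e (c • S) := by
  have h1 := reg_smul (d := 1) hS (by rwa [mul_one])
  rwa [mul_one] at h1

theorem reg_scale {e d : K} {S : K → K} (hS : Reg u v e S) (h : d ∈ chart u v) :
    Reg u v (e * d) S := by
  have h1 := reg_smul (c := 1) hS (by rwa [one_mul])
  rwa [one_smul] at h1

theorem reg_pow {S : K → K} (hS : Reg u v 1 S) (k : ℕ) : Reg u v 1 (S ^ k) := by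
  induction k with
  | zero => rw [pow_zero]; exact reg_one
  | succ k ih =>
    rw [pow_succ]
    have h := reg_mul ih hS
    rwa [mul_one] at h

theorem reg_zero {e : K} : Reg u v e 0 := fun f _ => by
  rw [Pi.zero_apply, mul_zero]
  exact zero_mem _

/-- a derivation is regular if its values at the coordinates are -/
theorem reg_der (D : Derivation ℂ K K) {e : K} (hu : e * D u ∈ chart u v)
    (hv : e * D v ∈ chart u v) : Reg u v e D := by
  intro f hf
  induction hf using Algebra.adjoin_induction with
  | mem z hz =>
    rcases hz with rfl | rfl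
    · exact hu
    · exact hv
  | algebraMap r =>
    rw [Derivation.map_algebraMap, mul_zero]
    exact zero_mem _
  | add a b ha hb h1 h2 =>
    rw [map_add, mul_add]
    exact add_mem h1 h2
  | mul a b ha hb h1 h2 =>
    rw [Derivation.leibniz, smul_eq_mul, smul_eq_mul, mul_add, mul_left_comm, mul_left_comm e b]
    exact add_mem (mul_mem ha h2) (mul_mem hb h1)

end reg

/-- a frame: coordinates with their derivations -/
structure Fr (x y : K) (Ex Ey : Derivation ℂ K K) : Prop where
  xx : Ex x = 1
  xy : Ex y = 0
  yx : Ey x = 0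
  yy : Ey y = 1
  gen : IntermediateField.adjoin ℂ ({x, y} : Set K) = ⊤

theorem der_ext {x y : K} (h : IntermediateField.adjoin ℂ ({x, y} : Set K) = ⊤)
    {D D' : Derivation ℂ K K} (hx : D x = D' x) (hy : D y = D' y) : D = D' := by
  ext f
  have hf : f ∈ IntermediateField.adjoin ℂ ({x, y} : Set K) := by rw [h]; trivial
  induction hf using IntermediateField.adjoin_induction with
  | mem z hz =>
    rcases hz with rfl | rfl
    · exact hx
    · exact hy
  | algebraMap r => rw [Derivation.map_algebraMap, Derivation.map_algebraMap]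
  | add a b _ _ h1 h2 => rw [map_add, map_add, h1, h2]
  | mul a b _ _ h1 h2 => rw [Derivation.leibniz, Derivation.leibniz, h1, h2]
  | inv a _ h1 => rw [Derivation.leibniz_inv, Derivation.leibniz_inv, h1]

/-- the derivations, as functions -/
def T1 (K : Type) [Field K] [Algebra ℂ K] : Submodule K (K → K) :=
  Submodule.span K (Set.range fun (D : Derivation ℂ K K) => (D : K → K))

theorem tens_eq (m : ℕ) : Tens K m = T1 K ^ m := by
  unfold Tens T1
  rw [Submodule.span_pow]
  congr 1
  ext S
  rw [Set.mem_pow]
  constructor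
  · rintro ⟨D, rfl⟩
    refine ⟨fun i => ⟨D i, D i, rfl⟩, ?_⟩
    rw [List.prod_ofFn]
    funext f
    rw [Finset.prod_apply]
  · rintro ⟨g, rfl⟩
    choose D hD using fun i => (g i).2
    refine ⟨D, ?_⟩
    rw [List.prod_ofFn]
    funext f
    rw [Finset.prod_apply]
    exact Finset.prod_congr rfl fun i _ => congrFun (hD i) f

theorem der_mem (D : Derivation ℂ K K) : (D : K → K) ∈ T1 K :=
  Submodule.subset_span ⟨D, rfl⟩

section frame

variable {x y : K} {Ex Ey : Derivation ℂ K K} (F : Fr x y Ex Ey)

include F

/-- two derivations which are not parallel generate -/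
theorem two {a c : Derivation ℂ K K} (h : a x * c y - a y * c x ≠ 0) :
    T1 K = Submodule.span K {(a : K → K)} ⊔ Submodule.span K {(c : K → K)} := by
  apply le_antisymm
  · unfold T1
    rw [Submodule.span_le]
    rintro _ ⟨D, rfl⟩
    have h1 : D = ((D x * c y - D y * c x) / (a x * c y - a y * c x)) • a +
        ((a x * D y - a y * D x) / (a x * c y - a y * c x)) • c := by
      refine der_ext F.gen ?_ ?_
      · rw [Derivation.add_apply, Derivation.smul_apply, Derivation.smul_apply, smul_eq_mul,
          smul_eq_mul, div_mul_eq_mul_div, div_mul_eq_mul_div, ← add_div, eq_div_iff h]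
        ring
      · rw [Derivation.add_apply, Derivation.smul_apply, Derivation.smul_apply, smul_eq_mul,
          smul_eq_mul, div_mul_eq_mul_div, div_mul_eq_mul_div, ← add_div, eq_div_iff h]
        ring
    have h2 : (D : K → K) = ((D x * c y - D y * c x) / (a x * c y - a y * c x)) • (a : K → K) +
        ((a x * D y - a y * D x) / (a x * c y - a y * c x)) • (c : K → K) := by
      conv_lhs => rw [h1]
      rfl
    change (D : K → K) ∈ _
    rw [h2]
    exact Submodule.add_mem_sup (Submodule.smul_mem _ _ (Submodule.mem_span_singleton_self _))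
      (Submodule.smul_mem _ _ (Submodule.mem_span_singleton_self _))
  · refine sup_le ?_ ?_ <;> rw [Submodule.span_singleton_le_iff_mem] <;> exact der_mem _

theorem half {a c d : Derivation ℂ K K} (hc : a x * c y - a y * c x ≠ 0)
    (hd : a x * d y - a y * d x ≠ 0) (k : ℕ) :
    T1 K ^ (k + 2) ≤ Submodule.span K {(a : K → K)} * T1 K ^ (k + 1) ⊔
      Submodule.span K {(c : K → K) * (d : K → K)} * T1 K ^ k := by
  set A := Submodule.span K {(a : K → K)} with hA
  set C := Submodule.span K {(c : K → K)} with hC
  set D := Submodule.span K {(d : K → K)} with hD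
  have e1 : T1 K = A ⊔ C := two F hc
  have e2 : T1 K = A ⊔ D := two F hd
  have e3 : Submodule.span K {(c : K → K) * (d : K → K)} = C * D := by
    rw [hC, hD, Submodule.span_mul_span, Set.singleton_mul_singleton]
  have hAT : A ≤ T1 K := by rw [e1]; exact le_sup_left
  have hCT : C ≤ T1 K := by rw [e1]; exact le_sup_right
  have h1 : T1 K ^ (k + 2) = T1 K * T1 K * T1 K ^ k := by ring
  rw [h1, e3]
  have h2 : T1 K * T1 K ≤ A * T1 K ⊔ C * D := by
    conv_lhs => rw [e1]
    rw [Submodule.sup_mul, ← e1]
    refine sup_le le_sup_left ?_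
    conv_lhs => rw [e2]
    rw [Submodule.mul_sup]
    refine sup_le ?_ le_sup_right
    rw [mul_comm C A]
    exact le_sup_of_le_left (mul_le_mul' le_rfl hCT)
  refine le_trans (mul_le_mul' h2 le_rfl) ?_
  rw [Submodule.sup_mul]
  refine sup_le_sup ?_ le_rfl
  rw [mul_assoc, ← pow_succ']

/-- **generation** by two products without common factors -/
theorem coprime {a b c d : Derivation ℂ K K} (hac : a x * c y - a y * c x ≠ 0)
    (had : a x * d y - a y * d x ≠ 0) (hbc : b x * c y - b y * c x ≠ 0)
    (hbd : b x * d y - b y * d x ≠ 0) (k : ℕ) :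
    T1 K ^ (k + 3) ≤ Submodule.span K {(a : K → K) * (b : K → K)} * T1 K ^ (k + 1) ⊔
      Submodule.span K {(c : K → K) * (d : K → K)} * T1 K ^ (k + 1) := by
  set A := Submodule.span K {(a : K → K)} with hA
  set B := Submodule.span K {(b : K → K)} with hB
  set C := Submodule.span K {(c : K → K) * (d : K → K)} with hC
  have e3 : Submodule.span K {(a : K → K) * (b : K → K)} = A * B := by
    rw [hA, hB, Submodule.span_mul_span, Set.singleton_mul_singleton]
  have hAT : A ≤ T1 K := by
    rw [hA, Submodule.span_singleton_le_iff_mem]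
    exact der_mem _
  have h1 := half F hac had (k + 1)
  have h2 := half F hbc hbd k
  rw [e3]
  refine le_trans h1 (sup_le ?_ le_sup_right)
  refine le_trans (mul_le_mul' le_rfl h2) ?_
  rw [Submodule.mul_sup, ← mul_assoc]
  refine sup_le_sup le_rfl ?_
  rw [← mul_assoc, mul_comm A, mul_assoc, pow_succ']
  exact mul_le_mul' le_rfl (mul_le_mul' hAT le_rfl)

end frame

end Pool.Agent.Helper11K9.TH
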