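import Pool.Agent.Helper11K9.TH.Pair

/-!
Explicit vector fields: the surfaces with `n = 0` and `n = 2`.
-/

set_option autoImplicit false
set_option linter.unusedSectionVars false

open Polynomial

namespace Pool.Agent.Helper11K9.TH

variable {K : Type} [Field K] [Algebra ℂ K]

section frame

variable {n : ℕ} {x y : K} {Ex Ey : Derivation ℂ K K} (F : Fr x y Ex Ey)
  {p : Fin 4 → ℂ × ℂ}

include F

/-- the vector field with given values -/
theorem exists_vf (A B : K) : ∃ D : Derivation ℂ K K, D x = A ∧ D y = B := by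
  refine ⟨A • Ex + B • Ey, ?_, ?_⟩
  · rw [Derivation.add_apply, Derivation.smul_apply, Derivation.smul_apply, F.xx, F.yx, smul_zero,
      smul_eq_mul, mul_one, add_zero]
  · rw [Derivation.add_apply, Derivation.smul_apply, Derivation.smul_apply, F.xy, F.yy, smul_zero,
      smul_eq_mul, mul_one, zero_add]

theorem der_tt (q : ℂ × ℂ) (D : Derivation ℂ K K) :
    (x - algebraMap ℂ K q.1) * D (tt x y q) = D y - tt x y q * D x := by
  have hs := x_ne F q.1
  unfold tt
  rw [Derivation.leibniz_div, map_sub, map_sub, Derivation.map_algebraMap,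
    Derivation.map_algebraMap, smul_eq_mul, smul_eq_mul, smul_eq_mul]
  field_simp
  ring

theorem tt_mul (q : ℂ × ℂ) : tt x y q * (x - algebraMap ℂ K q.1) = y - algebraMap ℂ K q.2 := by
  unfold tt
  exact div_mul_cancel₀ _ (x_ne F q.1)

/-- vector fields which vanish twice at a point -/
theorem exc_inv (q : ℂ × ℂ) (D : Derivation ℂ K K) {E1 E2 : K}
    (h1 : D x = (x - algebraMap ℂ K q.1) * E1)
    (h2 : D y - tt x y q * D x = (x - algebraMap ℂ K q.1) ^ 2 * E2)
    (hE1 : E1 ∈ chart x (tt x y q)) (hE2 : E2 ∈ chart x (tt x y q)) :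
    Reg x (tt x y q) (x - algebraMap ℂ K q.1)⁻¹ D := by
  have hs := x_ne F q.1
  refine reg_der D ?_ ?_
  · rw [h1, inv_mul_cancel_left₀ hs]
    exact hE1
  · have h3 := der_tt F q D
    rw [h2] at h3
    have h4 : D (tt x y q) = (x - algebraMap ℂ K q.1) * E2 := by
      apply mul_left_cancel₀ hs
      rw [h3]
      ring
    rw [h4, inv_mul_cancel_left₀ hs]
    exact hE2

theorem der_inv (D : Derivation ℂ K K) (z : K) : D z⁻¹ = -(z⁻¹ ^ 2 * D z) := by
  rw [Derivation.leibniz_inv, smul_eq_mul, neg_mul, inv_pow]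

/-- products of two vector fields -/
theorem good_prod {a b : Derivation ℂ K K} {e : K} (he : e ≠ 0) (ha : Reg x y 1 a)
    (hb : Reg x y 1 b) (ha1 : Reg x⁻¹ (y / x ^ n) e a) (hb1 : Reg x⁻¹ (y / x ^ n) e⁻¹ b)
    (ha2 : Reg x y⁻¹ 1 a) (hb2 : Reg x y⁻¹ 1 b)
    (h : ∀ i, Reg x (tt x y (p i)) (x - algebraMap ℂ K (p i).1)⁻¹ a ∨
      Reg x (tt x y (p i)) (x - algebraMap ℂ K (p i).1)⁻¹ b) :
    Good n x y p ((a : K → K) * (b : K → K)) := by
  have hpl : ∀ a : Derivation ℂ K K, Reg x y 1 a → a x ∈ chart x y ∧ a y ∈ chart x y := by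
    intro a ha
    have h1 := ha x (fst_mem _ _)
    have h2 := ha y (snd_mem _ _)
    rw [one_mul] at h1 h2
    exact ⟨h1, h2⟩
  refine ⟨?_, ?_, ?_, fun i => ?_⟩
  · have h := reg_mul ha hb
    rwa [one_mul] at h
  · have h := reg_mul ha1 hb1
    rwa [mul_inv_cancel₀ he] at h
  · have h := reg_mul ha2 hb2
    rwa [one_mul] at h
  · have hs := x_ne F (p i).1
    rcases h i with h | h
    · have h3 := reg_mul h (blow_reg F (p i) b (hpl b hb).1 (hpl b hb).2)
      rwa [inv_mul_cancel₀ hs] at h3
    · have h3 := reg_mul (blow_reg F (p i) a (hpl a ha).1 (hpl a ha).2) h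
      rwa [mul_inv_cancel₀ hs] at h3

/-- the vector fields for `n = 0` -/
theorem zero_vf {q r : ℂ × ℂ} (h1 : q.1 ≠ r.1) (h2 : q.2 ≠ r.2) :
    ∃ D : Derivation ℂ K K,
      D x = algebraMap ℂ K (q.1 - r.1)⁻¹ * ((x - algebraMap ℂ K q.1) * (x - algebraMap ℂ K r.1)) ∧
      D y = algebraMap ℂ K (q.2 - r.2)⁻¹ * ((y - algebraMap ℂ K q.2) * (y - algebraMap ℂ K r.2)) ∧
      Reg x y 1 D ∧ Reg x⁻¹ (y / x ^ 0) 1 D ∧ Reg x y⁻¹ 1 D ∧
      Reg x (tt x y q) (x - algebraMap ℂ K q.1)⁻¹ D ∧
      Reg x (tt x y r) (x - algebraMap ℂ K r.1)⁻¹ D := by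
  obtain ⟨D, hx, hy⟩ := exists_vf F
    (algebraMap ℂ K (q.1 - r.1)⁻¹ * ((x - algebraMap ℂ K q.1) * (x - algebraMap ℂ K r.1)))
    (algebraMap ℂ K (q.2 - r.2)⁻¹ * ((y - algebraMap ℂ K q.2) * (y - algebraMap ℂ K r.2)))
  have hU : algebraMap ℂ K (q.1 - r.1)⁻¹ * (algebraMap ℂ K q.1 - algebraMap ℂ K r.1) = 1 := by
    rw [← map_sub, ← map_mul, inv_mul_cancel₀ (sub_ne_zero.2 h1), map_one]
  have hW : algebraMap ℂ K (q.2 - r.2)⁻¹ * (algebraMap ℂ K q.2 - algebraMap ℂ K r.2) = 1 := by
    rw [← map_sub, ← map_mul, inv_mul_cancel₀ (sub_ne_zero.2 h2), map_one]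
  set U := algebraMap ℂ K (q.1 - r.1)⁻¹ with eU
  set W := algebraMap ℂ K (q.2 - r.2)⁻¹ with eW
  have h0 := x0 F
  have h0y := y0 F
  refine ⟨D, hx, hy, ?_, ?_, ?_, ?_, ?_⟩
  · refine reg_der D ?_ ?_
    · rw [one_mul, hx, eU]; (repeat' first
          | exact fst_mem _ _ | exact snd_mem _ _ | exact c_mem _ _ | exact zero_mem _
          | exact one_mem _ | exact natCast_mem _ _ | exact ofNat_mem _ _ | apply add_mem
          | apply sub_mem | apply mul_mem | apply neg_mem | apply pow_mem)
    · rw [one_mul, hy, eW]; (repeat' first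
          | exact fst_mem _ _ | exact snd_mem _ _ | exact c_mem _ _ | exact zero_mem _
          | exact one_mem _ | exact natCast_mem _ _ | exact ofNat_mem _ _ | apply add_mem
          | apply sub_mem | apply mul_mem | apply neg_mem | apply pow_mem)
  · rw [pow_zero, div_one]
    refine reg_der D ?_ ?_
    · have h : 1 * D x⁻¹ = -(U * ((1 - algebraMap ℂ K q.1 * x⁻¹) *
          (1 - algebraMap ℂ K r.1 * x⁻¹))) := by
        rw [der_inv F, hx]
        field_simp
      rw [h, eU]; (repeat' first
          | exact fst_mem _ _ | exact snd_mem _ _ | exact c_mem _ _ | exact zero_mem _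
          | exact one_mem _ | exact natCast_mem _ _ | exact ofNat_mem _ _ | apply add_mem
          | apply sub_mem | apply mul_mem | apply neg_mem | apply pow_mem)
    · rw [one_mul, hy, eW]; (repeat' first
          | exact fst_mem _ _ | exact snd_mem _ _ | exact c_mem _ _ | exact zero_mem _
          | exact one_mem _ | exact natCast_mem _ _ | exact ofNat_mem _ _ | apply add_mem
          | apply sub_mem | apply mul_mem | apply neg_mem | apply pow_mem)
  · refine reg_der D ?_ ?_
    · rw [one_mul, hx, eU]; (repeat' first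
          | exact fst_mem _ _ | exact snd_mem _ _ | exact c_mem _ _ | exact zero_mem _
          | exact one_mem _ | exact natCast_mem _ _ | exact ofNat_mem _ _ | apply add_mem
          | apply sub_mem | apply mul_mem | apply neg_mem | apply pow_mem)
    · have h : 1 * D y⁻¹ = -(W * ((1 - algebraMap ℂ K q.2 * y⁻¹) *
          (1 - algebraMap ℂ K r.2 * y⁻¹))) := by
        rw [der_inv F, hy]
        field_simp
      rw [h, eW]; (repeat' first
          | exact fst_mem _ _ | exact snd_mem _ _ | exact c_mem _ _ | exact zero_mem _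
          | exact one_mem _ | exact natCast_mem _ _ | exact ofNat_mem _ _ | apply add_mem
          | apply sub_mem | apply mul_mem | apply neg_mem | apply pow_mem)
  · have ht := tt_mul F q
    refine exc_inv F q D (E1 := U * (x - algebraMap ℂ K r.1))
      (E2 := tt x y q * (tt x y q * W - U)) (by rw [hx]; ring) ?_ (by rw [eU]; (repeat' first
          | exact fst_mem _ _ | exact snd_mem _ _ | exact c_mem _ _ | exact zero_mem _
          | exact one_mem _ | exact natCast_mem _ _ | exact ofNat_mem _ _ | apply add_mem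
          | apply sub_mem | apply mul_mem | apply neg_mem | apply pow_mem))
      (by rw [eU, eW]; (repeat' first
          | exact fst_mem _ _ | exact snd_mem _ _ | exact c_mem _ _ | exact zero_mem _
          | exact one_mem _ | exact natCast_mem _ _ | exact ofNat_mem _ _ | apply add_mem
          | apply sub_mem | apply mul_mem | apply neg_mem | apply pow_mem))
    rw [hx, hy]
    have e1 : x - algebraMap ℂ K r.1 = (x - algebraMap ℂ K q.1) +
        (algebraMap ℂ K q.1 - algebraMap ℂ K r.1) := by ring
    have e2 : y - algebraMap ℂ K r.2 = tt x y q * (x - algebraMap ℂ K q.1) +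
        (algebraMap ℂ K q.2 - algebraMap ℂ K r.2) := by rw [ht]; ring
    rw [← ht, e1, e2]
    linear_combination (tt x y q * (x - algebraMap ℂ K q.1)) * hW -
      (tt x y q * (x - algebraMap ℂ K q.1)) * hU
  · have ht := tt_mul F r
    refine exc_inv F r D (E1 := U * (x - algebraMap ℂ K q.1))
      (E2 := tt x y r * (tt x y r * W - U)) (by rw [hx]; ring) ?_ (by rw [eU]; (repeat' first
          | exact fst_mem _ _ | exact snd_mem _ _ | exact c_mem _ _ | exact zero_mem _
          | exact one_mem _ | exact natCast_mem _ _ | exact ofNat_mem _ _ | apply add_mem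
          | apply sub_mem | apply mul_mem | apply neg_mem | apply pow_mem))
      (by rw [eU, eW]; (repeat' first
          | exact fst_mem _ _ | exact snd_mem _ _ | exact c_mem _ _ | exact zero_mem _
          | exact one_mem _ | exact natCast_mem _ _ | exact ofNat_mem _ _ | apply add_mem
          | apply sub_mem | apply mul_mem | apply neg_mem | apply pow_mem))
    rw [hx, hy]
    have e1 : x - algebraMap ℂ K q.1 = (x - algebraMap ℂ K r.1) -
        (algebraMap ℂ K q.1 - algebraMap ℂ K r.1) := by ring
    have e2 : y - algebraMap ℂ K q.2 = tt x y r * (x - algebraMap ℂ K r.1) -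
        (algebraMap ℂ K q.2 - algebraMap ℂ K r.2) := by rw [ht]; ring
    rw [← ht, e1, e2]
    linear_combination -(tt x y r * (x - algebraMap ℂ K r.1)) * hW +
      (tt x y r * (x - algebraMap ℂ K r.1)) * hU

/-- the vector fields for `n = 2` -/
theorem two_vf {q r : ℂ × ℂ} {κ : ℂ} (h1 : κ * (q.1 - r.1) = q.2 - r.2) :
    ∃ D : Derivation ℂ K K,
      D x = (x - algebraMap ℂ K q.1) * (x - algebraMap ℂ K r.1) ∧
      D y = algebraMap ℂ K κ * ((x - algebraMap ℂ K q.1) * (x - algebraMap ℂ K r.1)) +
        (y - (algebraMap ℂ K q.2 + algebraMap ℂ K κ * (x - algebraMap ℂ K q.1))) *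
          ((x - algebraMap ℂ K q.1) + (x - algebraMap ℂ K r.1)) ∧
      Reg x y 1 D ∧ Reg x⁻¹ (y / x ^ 2) 1 D ∧ Reg x y⁻¹ 1 D ∧
      Reg x (tt x y q) (x - algebraMap ℂ K q.1)⁻¹ D ∧
      Reg x (tt x y r) (x - algebraMap ℂ K r.1)⁻¹ D := by
  obtain ⟨D, hx, hy⟩ := exists_vf F
    ((x - algebraMap ℂ K q.1) * (x - algebraMap ℂ K r.1))
    (algebraMap ℂ K κ * ((x - algebraMap ℂ K q.1) * (x - algebraMap ℂ K r.1)) +
        (y - (algebraMap ℂ K q.2 + algebraMap ℂ K κ * (x - algebraMap ℂ K q.1))) *
          ((x - algebraMap ℂ K q.1) + (x - algebraMap ℂ K r.1)))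
  have hκ : algebraMap ℂ K κ * (algebraMap ℂ K q.1 - algebraMap ℂ K r.1) =
      algebraMap ℂ K q.2 - algebraMap ℂ K r.2 := by
    rw [← map_sub, ← map_mul, h1, map_sub]
  have h0 := x0 F
  have h0y := y0 F
  refine ⟨D, hx, hy, ?_, ?_, ?_, ?_, ?_⟩
  · refine reg_der D ?_ ?_
    · rw [one_mul, hx]; (repeat' first
          | exact fst_mem _ _ | exact snd_mem _ _ | exact c_mem _ _ | exact zero_mem _
          | exact one_mem _ | exact natCast_mem _ _ | exact ofNat_mem _ _ | apply add_mem
          | apply sub_mem | apply mul_mem | apply neg_mem | apply pow_mem)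
    · rw [one_mul, hy]; (repeat' first
          | exact fst_mem _ _ | exact snd_mem _ _ | exact c_mem _ _ | exact zero_mem _
          | exact one_mem _ | exact natCast_mem _ _ | exact ofNat_mem _ _ | apply add_mem
          | apply sub_mem | apply mul_mem | apply neg_mem | apply pow_mem)
  · refine reg_der D ?_ ?_
    · have h : 1 * D x⁻¹ = -((1 - algebraMap ℂ K q.1 * x⁻¹) *
          (1 - algebraMap ℂ K r.1 * x⁻¹)) := by
        rw [der_inv F, hx]
        field_simp
      rw [h]; (repeat' first
          | exact fst_mem _ _ | exact snd_mem _ _ | exact c_mem _ _ | exact zero_mem _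
          | exact one_mem _ | exact natCast_mem _ _ | exact ofNat_mem _ _ | apply add_mem
          | apply sub_mem | apply mul_mem | apply neg_mem | apply pow_mem)
    · have h : 1 * D (y / x ^ 2) = (y / x ^ 2) * ((algebraMap ℂ K q.1 + algebraMap ℂ K r.1) -
          (1 + 1) * (algebraMap ℂ K q.1 * algebraMap ℂ K r.1) * x⁻¹) +
          (algebraMap ℂ K κ * ((1 - algebraMap ℂ K q.1 * x⁻¹) * (1 - algebraMap ℂ K r.1 * x⁻¹)) -
          (algebraMap ℂ K κ + (algebraMap ℂ K q.2 - algebraMap ℂ K κ * algebraMap ℂ K q.1) * x⁻¹) *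
          ((1 + 1) - (algebraMap ℂ K q.1 + algebraMap ℂ K r.1) * x⁻¹)) := by
        rw [one_mul, Derivation.leibniz_div, Derivation.leibniz_pow, hx, hy, smul_eq_mul,
          smul_eq_mul, smul_eq_mul, nsmul_eq_mul, smul_eq_mul]
        norm_num
        field_simp
        ring
      rw [h]; (repeat' first
          | exact fst_mem _ _ | exact snd_mem _ _ | exact c_mem _ _ | exact zero_mem _
          | exact one_mem _ | exact natCast_mem _ _ | exact ofNat_mem _ _ | apply add_mem
          | apply sub_mem | apply mul_mem | apply neg_mem | apply pow_mem)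
  · refine reg_der D ?_ ?_
    · rw [one_mul, hx]; (repeat' first
          | exact fst_mem _ _ | exact snd_mem _ _ | exact c_mem _ _ | exact zero_mem _
          | exact one_mem _ | exact natCast_mem _ _ | exact ofNat_mem _ _ | apply add_mem
          | apply sub_mem | apply mul_mem | apply neg_mem | apply pow_mem)
    · have h : 1 * D y⁻¹ = -((algebraMap ℂ K κ * ((x - algebraMap ℂ K q.1) *
          (x - algebraMap ℂ K r.1)) - (algebraMap ℂ K q.2 + algebraMap ℂ K κ *
          (x - algebraMap ℂ K q.1)) * ((x - algebraMap ℂ K q.1) + (x - algebraMap ℂ K r.1))) *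
          y⁻¹ ^ 2) - ((x - algebraMap ℂ K q.1) + (x - algebraMap ℂ K r.1)) * y⁻¹ := by
        rw [der_inv F, hy]
        field_simp
        ring
      rw [h]; (repeat' first
          | exact fst_mem _ _ | exact snd_mem _ _ | exact c_mem _ _ | exact zero_mem _
          | exact one_mem _ | exact natCast_mem _ _ | exact ofNat_mem _ _ | apply add_mem
          | apply sub_mem | apply mul_mem | apply neg_mem | apply pow_mem)
  · have ht := tt_mul F q
    refine exc_inv F q D (E1 := x - algebraMap ℂ K r.1)
      (E2 := tt x y q - algebraMap ℂ K κ) hx ?_ (by (repeat' first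
          | exact fst_mem _ _ | exact snd_mem _ _ | exact c_mem _ _ | exact zero_mem _
          | exact one_mem _ | exact natCast_mem _ _ | exact ofNat_mem _ _ | apply add_mem
          | apply sub_mem | apply mul_mem | apply neg_mem | apply pow_mem)) (by (repeat' first
          | exact fst_mem _ _ | exact snd_mem _ _ | exact c_mem _ _ | exact zero_mem _
          | exact one_mem _ | exact natCast_mem _ _ | exact ofNat_mem _ _ | apply add_mem
          | apply sub_mem | apply mul_mem | apply neg_mem | apply pow_mem))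
    rw [hx, hy]
    have e1 : y = tt x y q * (x - algebraMap ℂ K q.1) + algebraMap ℂ K q.2 := by rw [ht]; ring
    generalize tt x y q = t at e1
    rw [e1]
    ring
  · have ht := tt_mul F r
    refine exc_inv F r D (E1 := x - algebraMap ℂ K q.1)
      (E2 := tt x y r - algebraMap ℂ K κ) (by rw [hx]; ring) ?_ (by (repeat' first
          | exact fst_mem _ _ | exact snd_mem _ _ | exact c_mem _ _ | exact zero_mem _
          | exact one_mem _ | exact natCast_mem _ _ | exact ofNat_mem _ _ | apply add_mem
          | apply sub_mem | apply mul_mem | apply neg_mem | apply pow_mem)) (by (repeat' first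
          | exact fst_mem _ _ | exact snd_mem _ _ | exact c_mem _ _ | exact zero_mem _
          | exact one_mem _ | exact natCast_mem _ _ | exact ofNat_mem _ _ | apply add_mem
          | apply sub_mem | apply mul_mem | apply neg_mem | apply pow_mem))
    rw [hx, hy]
    have e1 : y = tt x y r * (x - algebraMap ℂ K r.1) + algebraMap ℂ K r.2 := by rw [ht]; ring
    generalize tt x y r = t at e1
    rw [e1]
    linear_combination ((x - algebraMap ℂ K q.1) + (x - algebraMap ℂ K r.1)) * hκ

end frame

end Pool.Agent.Helper11K9.TH
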