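import Pool.Agent.Helper11K9.TH.Star

/-!
Surfaces with an action of the multiplicative group: generation.
-/

set_option autoImplicit false
set_option linter.unusedSectionVars false

open Polynomial

namespace Pool.Agent.Helper11K9.TH

variable {K : Type} [Field K] [Algebra ℂ K]

/-- polynomials of degree `m` in `A`, `B` with Laurent polynomials as coefficients; `Ld m a S`: the
leading coefficient (of `B ^ m`) is `a` -/
def Ld (x : K) (A B : K → K) : ℕ → K → (K → K) → Prop
  | 0, a, S => S = a • 1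
  | (m + 1), a, S => ∃ b T, b ∈ chart x x⁻¹ ∧ Ld x A B m b T ∧ S = a • B ^ (m + 1) + A * T

section ld

variable {x : K} {A B : K → K}

theorem Ld.zero (m : ℕ) : Ld x A B m 0 0 := by
  induction m with
  | zero => exact (zero_smul _ _).symm
  | succ m ih => exact ⟨0, 0, zero_mem _, ih, by rw [zero_smul, mul_zero, add_zero]⟩

theorem Ld.add {m : ℕ} {a b : K} {S T : K → K} (hS : Ld x A B m a S) (hT : Ld x A B m b T) :
    Ld x A B m (a + b) (S + T) := by
  induction m generalizing a b S T with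
  | zero =>
    change S = _ at hS
    change T = _ at hT
    change S + T = _
    rw [hS, hT, add_smul]
  | succ m ih =>
    obtain ⟨c, U, hc, hU, rfl⟩ := hS
    obtain ⟨d, V, hd, hV, rfl⟩ := hT
    refine ⟨c + d, U + V, add_mem hc hd, ih hU hV, ?_⟩
    rw [add_smul, mul_add]
    abel

theorem Ld.smul {m : ℕ} {a c : K} {S : K → K} (hc : c ∈ chart x x⁻¹) (hS : Ld x A B m a S) :
    Ld x A B m (c * a) (c • S) := by
  induction m generalizing a S with
  | zero =>
    change S = _ at hS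
    change c • S = _
    rw [hS, mul_smul]
  | succ m ih =>
    obtain ⟨b, U, hb, hU, rfl⟩ := hS
    refine ⟨c * b, c • U, mul_mem hc hb, ih hU, ?_⟩
    rw [smul_add, mul_smul, mul_smul_comm]

theorem Ld.neg {m : ℕ} {a : K} {S : K → K} (hS : Ld x A B m a S) : Ld x A B m (-a) (-S) := by
  have h := Ld.smul (c := -1) (neg_mem (one_mem _)) hS
  rwa [neg_one_mul, neg_one_smul] at h

theorem Ld.sub {m : ℕ} {a b : K} {S T : K → K} (hS : Ld x A B m a S) (hT : Ld x A B m b T) :
    Ld x A B m (a - b) (S - T) := by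
  rw [sub_eq_add_neg, sub_eq_add_neg]
  exact hS.add hT.neg

theorem Ld.mulA {m : ℕ} {a : K} {S : K → K} (ha : a ∈ chart x x⁻¹) (hS : Ld x A B m a S) :
    Ld x A B (m + 1) 0 (A * S) := ⟨a, S, ha, hS, by rw [zero_smul, zero_add]⟩

theorem Ld.mulB {m : ℕ} {a : K} {S : K → K} (ha : a ∈ chart x x⁻¹) (hS : Ld x A B m a S) :
    Ld x A B (m + 1) a (B * S) := by
  induction m generalizing a S with
  | zero =>
    change S = _ at hS
    subst hS
    refine ⟨0, 0, zero_mem _, Ld.zero 0, ?_⟩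
    rw [mul_zero, add_zero, pow_succ, pow_zero, one_mul, mul_smul_comm, mul_one]
  | succ m ih =>
    obtain ⟨b, U, hb, hU, rfl⟩ := hS
    refine ⟨b, B * U, hb, ih hb hU, ?_⟩
    rw [mul_add, mul_smul_comm, ← pow_succ', mul_left_comm]

/-- multiplication by a linear form -/
theorem Ld.lin {m : ℕ} {a b c : K} {S : K → K} (ha : a ∈ chart x x⁻¹) (hb : b ∈ chart x x⁻¹)
    (hc : c ∈ chart x x⁻¹) (hS : Ld x A B m a S) :
    Ld x A B (m + 1) (b * a) ((b • B + c • A) * S) := by
  have h1 := (Ld.mulB ha hS).smul hb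
  have h2 := (Ld.mulA ha hS).smul hc
  have h3 := h1.add h2
  rw [mul_zero, add_zero] at h3
  have h4 : (b • B + c • A) * S = b • (B * S) + c • (A * S) := by
    rw [add_mul, smul_mul_assoc, smul_mul_assoc]
  rw [h4]
  exact h3

end ld

section frame

variable {n : ℕ} {x y : K} {Ex Ey : Derivation ℂ K K} (F : Fr x y Ex Ey)
  {p : Fin 4 → ℂ × ℂ} {c : ℂ[X]} {A B : Derivation ℂ K K} (H : St n x y p c A B)

theorem Ld.mem {m : ℕ} {a : K} {S : K → K} (h : Ld x (A : K → K) B m a S) :
    S ∈ T1 K ^ m := by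
  induction m generalizing a S with
  | zero =>
    change S = _ at h
    rw [h, pow_zero]
    exact Submodule.smul_mem _ _ (Submodule.one_le.1 le_rfl)
  | succ m ih =>
    obtain ⟨b, U, -, hU, rfl⟩ := h
    refine add_mem (Submodule.smul_mem _ _ (Submodule.pow_mem_pow _ (der_mem B) _)) ?_
    rw [pow_succ']
    exact Submodule.mul_mem_mul (der_mem A) (ih hU)

include F H

theorem lift (m : ℕ) : ∃ S, FR x y p S ∧
    Ld x (A : K → K) B m (gg x p ^ ((m + 1) / 2)) S := by
  have hg : gg x p ∈ chart x x⁻¹ := gg_mem (fst_mem _ _) p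
  have hg' : aeval x (derivative (GG p)) ∈ chart x x⁻¹ := poly_mem (fst_mem _ _) _
  induction m using Nat.strong_induction_on with
  | _ m ih =>
    match m, ih with
    | 0, _ => exact ⟨1, FR.one, by
        change _ = _
        rw [show (0 + 1) / 2 = 0 from rfl, pow_zero, one_smul]⟩
    | 1, _ =>
      refine ⟨gg x p • (B : K → K), u_FR F H, 0, 0, zero_mem _, Ld.zero 0, ?_⟩
      rw [mul_zero, add_zero, show (1 + 1) / 2 = 1 from rfl, pow_one, pow_succ (B : K → K),
        pow_zero, one_mul]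
    | (k + 2), ih =>
      obtain ⟨S, hS, hS'⟩ := ih k (by omega)
      refine ⟨_, (q_FR F H).mul hS, ?_⟩
      have h1 := Ld.lin (pow_mem hg _) hg hg' hS'
      have h2 := Ld.mulB (mul_mem hg (pow_mem hg _)) h1
      rw [mul_assoc, show (k + 2 + 1) / 2 = (k + 1) / 2 + 1 by omega, pow_succ' (gg x p)]
      exact h2

theorem inf (m : ℕ) : ∃ S, Reg x⁻¹ (y / x ^ n) 1 S ∧
    Ld x (A : K → K) B m ((-x ^ 2) ^ m) S := by
  obtain ⟨V, hV, hV'⟩ := V_reg F H
  refine ⟨(V : K → K) ^ m, reg_pow hV m, ?_⟩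
  induction m with
  | zero =>
    change _ = _
    rw [pow_zero, pow_zero, one_smul]
  | succ m ih =>
    have hx : -x ^ 2 ∈ chart x x⁻¹ := neg_mem (pow_mem (fst_mem _ _) _)
    have h := Ld.lin (pow_mem hx m) hx
      (c := -((n : K) * x)) (neg_mem (mul_mem (natCast_mem _ _) (fst_mem _ _))) ih
    rw [← hV', ← pow_succ', ← pow_succ'] at h
    exact h

theorem pw (k m : ℕ) (h : 4 * k ≤ 2 * m + 2) : x⁻¹ * x⁻¹ ^ (2 * m) =
    x * x⁻¹ ^ (4 * k) * x⁻¹ ^ (2 * m + 2 - 4 * k) := by
  have h0 := x0 F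
  rw [mul_assoc, ← pow_add, show 4 * k + (2 * m + 2 - 4 * k) = 2 * m + 2 by omega, pow_add]
  field_simp

/-- **decomposition**: the first cohomology vanishes -/
theorem dec (m : ℕ) : ∀ a S, a ∈ chart x x⁻¹ → Ld x (A : K → K) B m a S →
    ∃ f i, S = f + i ∧ FR x y p f ∧ f ∈ T1 K ^ m ∧ Reg x⁻¹ (y / x ^ n) x⁻¹ i := by
  have h0 := x0 F
  have hsq : ∀ m, (-x ^ 2) ^ m * ((-1) ^ m * x⁻¹ ^ (2 * m)) = 1 := fun m => by
    have h1 : x ^ (2 * m) * x⁻¹ ^ (2 * m) = 1 := by
      rw [← mul_pow, mul_inv_cancel₀ h0, one_pow]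
    have h2 : ((-1 : K)) ^ m * (-1) ^ m = 1 := by
      rw [← mul_pow, neg_one_mul, neg_neg, one_pow]
    rw [neg_pow, ← pow_mul]
    linear_combination (x ^ (2 * m) * x⁻¹ ^ (2 * m)) * h2 + h1
  induction m with
  | zero =>
    intro a S ha hS
    change S = _ at hS
    obtain ⟨Q, ρ, h1, h2, h3⟩ := divide h0 ha p 0
    refine ⟨aeval x Q • 1, ρ • 1, ?_, FR.one.smul Q, ?_, ?_⟩
    · rw [hS, h1, pow_zero, one_mul, add_smul]
    · rw [pow_zero]
      exact Submodule.smul_mem _ _ (Submodule.one_le.1 le_rfl)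
    · have h4 := h3 (y / x ^ n)
      rw [mul_zero, pow_zero, mul_one] at h4
      have h5 : ρ * x⁻¹ ∈ chart x⁻¹ (y / x ^ n) := by
        have h6 : ρ * x⁻¹ = ρ * x * x⁻¹ ^ 2 := by field_simp
        rw [h6]
        exact mul_mem h4 (pow_mem (fst_mem _ _) _)
      have h7 := reg_smul (u := x⁻¹) (v := y / x ^ n) (d := x⁻¹) reg_one h5
      rwa [one_mul] at h7
  | succ m ih =>
    intro a S ha hS
    obtain ⟨Q, ρ, h1, h2, h3⟩ := divide h0 ha p ((m + 1 + 1) / 2)
    obtain ⟨L, hL, hL'⟩ := lift F H (m + 1)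
    obtain ⟨W, hW, hW'⟩ := inf F H (m + 1)
    set κ := ρ * ((-1) ^ (m + 1) * x⁻¹ ^ (2 * (m + 1))) with hκ
    have hκm : κ ∈ chart x x⁻¹ := mul_mem h2 (mul_mem (pow_mem (neg_mem (one_mem _)) _)
      (pow_mem (snd_mem _ _) _))
    have h4 := (hS.sub (hL'.smul (c := aeval x Q) (poly_mem (fst_mem _ _) _))).sub (hW'.smul hκm)
    have h5 : a - aeval x Q * gg x p ^ ((m + 1 + 1) / 2) - κ * (-x ^ 2) ^ (m + 1) = 0 := by
      rw [h1, hκ]
      linear_combination -ρ * hsq (m + 1)
    rw [h5] at h4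
    obtain ⟨b, T, hb, hT, hST⟩ := h4
    rw [zero_smul, zero_add] at hST
    obtain ⟨f, i, rfl, hf, hf', hi⟩ := ih b T hb hT
    refine ⟨aeval x Q • L + (A : K → K) * f, κ • W + (A : K → K) * i, ?_,
      (hL.smul Q).add ((A_FR F H).mul hf), ?_, ?_⟩
    · rw [mul_add] at hST
      have h6 : S = aeval x Q • L + κ • W + (S - aeval x Q • L - κ • W) := by abel
      rw [h6, hST]
      abel
    · refine add_mem (Submodule.smul_mem _ _ hL'.mem) ?_
      rw [pow_succ']
      exact Submodule.mul_mem_mul (der_mem A) hf'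
    · refine reg_add ?_ ?_
      · have h6 : κ * x⁻¹ ∈ chart x⁻¹ (y / x ^ n) := by
          have h7 := pw F H ((m + 1 + 1) / 2) (m + 1) (by omega)
          have h8 : κ * x⁻¹ = ρ * (x * x⁻¹ ^ (4 * ((m + 1 + 1) / 2))) *
              ((-1) ^ (m + 1) * x⁻¹ ^ (2 * (m + 1) + 2 - 4 * ((m + 1 + 1) / 2))) := by
            rw [hκ]
            linear_combination (ρ * (-1) ^ (m + 1)) * h7
          rw [h8]
          exact mul_mem (h3 _) (mul_mem (pow_mem (neg_mem (one_mem _)) _)
            (pow_mem (fst_mem _ _) _))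
        have h9 := reg_smul hW h6
        rwa [one_mul] at h9
      · have h6 := reg_mul (A_good F H).fibre hi
        rwa [one_mul] at h6

/-- a section with leading coefficient a power of `g` -/
theorem sect (m : ℕ) : ∃ P T, IsSec n x y p 0 2 0 (m + 1) P ∧ T ∈ T1 K ^ m ∧
    P = gg x p ^ ((m + 1 + 1) / 2) • (B : K → K) ^ (m + 1) + (A : K → K) * T := by
  have h0 := x0 F
  obtain ⟨L, hL, hL'⟩ := lift F H (m + 1)
  obtain ⟨W, hW, hW'⟩ := inf F H (m + 1)
  have hg : gg x p ∈ chart x x⁻¹ := gg_mem (fst_mem _ _) p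
  have hsq : (-x ^ 2) ^ (m + 1) * ((-1) ^ (m + 1) * x⁻¹ ^ (2 * (m + 1))) = 1 := by
    have h1 : x ^ (2 * (m + 1)) * x⁻¹ ^ (2 * (m + 1)) = 1 := by
      rw [← mul_pow, mul_inv_cancel₀ h0, one_pow]
    have h2 : ((-1 : K)) ^ (m + 1) * (-1) ^ (m + 1) = 1 := by
      rw [← mul_pow, neg_one_mul, neg_neg, one_pow]
    rw [neg_pow, ← pow_mul]
    linear_combination (x ^ (2 * (m + 1)) * x⁻¹ ^ (2 * (m + 1))) * h2 + h1
  set κ := gg x p ^ ((m + 1 + 1) / 2) * ((-1) ^ (m + 1) * x⁻¹ ^ (2 * (m + 1))) with hκ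
  have hκm : κ ∈ chart x x⁻¹ := mul_mem (pow_mem hg _)
    (mul_mem (pow_mem (neg_mem (one_mem _)) _) (pow_mem (snd_mem _ _) _))
  have h4 := hL'.sub (hW'.smul hκm)
  have h5 : gg x p ^ ((m + 1 + 1) / 2) - κ * (-x ^ 2) ^ (m + 1) = 0 := by
    rw [hκ]
    linear_combination -(gg x p ^ ((m + 1 + 1) / 2)) * hsq
  rw [h5] at h4
  obtain ⟨b, T, hb, hT, hST⟩ := h4
  rw [zero_smul, zero_add] at hST
  obtain ⟨f, i, rfl, hf, hf', hi⟩ := dec F H m b T hb hT
  obtain ⟨b', T', -, hT', hLT⟩ := hL'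
  have hP : L - (A : K → K) * f = κ • W + (A : K → K) * i := by
    rw [mul_add] at hST
    have h6 : L = κ • W + (L - κ • W) := by abel
    rw [h6, hST]
    abel
  have hFR := hL.sub ((A_FR F H).mul hf)
  refine ⟨L - (A : K → K) * f, T' - f, ⟨?_, hFR.plane, ?_, ?_, ?_⟩, sub_mem hT'.mem hf', ?_⟩
  · rw [tens_eq]
    refine sub_mem ?_ ?_
    · rw [hLT, pow_succ']
      refine add_mem (Submodule.smul_mem _ _ ?_) (Submodule.mul_mem_mul (der_mem A) hT'.mem)
      rw [pow_succ' (B : K → K)]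
      exact Submodule.mul_mem_mul (der_mem B) (Submodule.pow_mem_pow _ (der_mem B) _)
    · rw [pow_succ']
      exact Submodule.mul_mem_mul (der_mem A) hf'
  · rw [hP]
    refine reg_add ?_ ?_
    · have h6 : κ * x⁻¹ ^ 2 ∈ chart x⁻¹ (y / x ^ n) := by
        have h7 : x⁻¹ ^ 2 * x⁻¹ ^ (2 * (m + 1)) = x⁻¹ ^ (4 * ((m + 1 + 1) / 2)) *
            x⁻¹ ^ (2 * (m + 1) + 2 - 4 * ((m + 1 + 1) / 2)) := by
          rw [← pow_add, ← pow_add]
          congr 1
          omega
        have h8 : κ * x⁻¹ ^ 2 = (gg x p * x⁻¹ ^ 4) ^ ((m + 1 + 1) / 2) *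
            ((-1) ^ (m + 1) * x⁻¹ ^ (2 * (m + 1) + 2 - 4 * ((m + 1 + 1) / 2))) := by
          rw [hκ, mul_pow, ← pow_mul]
          linear_combination (gg x p ^ ((m + 1 + 1) / 2) * (-1) ^ (m + 1)) * h7
        rw [h8]
        exact mul_mem (pow_mem (gg_inf F) _) (mul_mem (pow_mem (neg_mem (one_mem _)) _)
          (pow_mem (fst_mem _ _) _))
      have h9 := reg_smul hW h6
      rwa [one_mul] at h9
    · have h6 := reg_mul (A_good F H).fibre hi
      rw [one_mul] at h6
      have h7 := reg_scale h6 (fst_mem x⁻¹ (y / x ^ n))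
      rwa [← pow_two] at h7
  · rw [pow_zero]
    exact hFR.curve
  · intro i
    rw [pow_zero]
    exact hFR.exc i
  · rw [hLT, mul_sub]
    abel

theorem top_le (m : ℕ) : T1 K ^ (m + 1) ≤ Submodule.span K {(B : K → K) ^ (m + 1)} ⊔
    Submodule.span K {(A : K → K)} * T1 K ^ m := by
  have hne : A x * B y - A y * B x ≠ 0 := by
    rw [H.hX, H.hX', H.hY, zero_mul, zero_sub, mul_one]
    intro h
    have h1 := congrArg Ey (neg_eq_zero.1 h)
    rw [map_sub, der_poly, F.yx, F.yy, mul_zero, sub_zero, map_zero] at h1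
    exact one_ne_zero h1
  have h2 : T1 K = Submodule.span K {(A : K → K)} ⊔ Submodule.span K {(B : K → K)} := two F hne
  have hA : Submodule.span K {(A : K → K)} ≤ T1 K := by rw [h2]; exact le_sup_left
  have hB : Submodule.span K {(B : K → K)} ≤ T1 K := by rw [h2]; exact le_sup_right
  induction m with
  | zero =>
    rw [zero_add, pow_one, pow_one, pow_zero, mul_one]
    conv_lhs => rw [h2]
    rw [sup_comm]
  | succ m ih =>
    have h3 : T1 K ^ (m + 1 + 1) = T1 K * T1 K ^ (m + 1) := pow_succ' _ _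
    rw [h3]
    conv_lhs => rw [h2, Submodule.sup_mul, ← h2]
    refine sup_le le_sup_right ?_
    refine le_trans (mul_le_mul' le_rfl ih) ?_
    rw [Submodule.mul_sup, Submodule.span_mul_span, Set.singleton_mul_singleton, ← pow_succ']
    refine sup_le le_sup_left (le_sup_of_le_right ?_)
    rw [mul_left_comm]
    refine mul_le_mul' le_rfl ?_
    rw [pow_succ']
    exact mul_le_mul' hB le_rfl

/-- **generation** -/
theorem gen_star (m : ℕ) : Tens K m ≤ Submodule.span K {S | IsSec n x y p 0 8 0 m S} := by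
  have key : ∀ m, T1 K ^ m ≤ Submodule.span K {S | IsSec n x y p 0 2 0 m S} := by
    intro m
    induction m with
    | zero =>
      rw [pow_zero, Submodule.one_eq_span, Submodule.span_singleton_le_iff_mem]
      refine Submodule.subset_span ⟨?_, reg_one, ?_, ?_, fun i => ?_⟩
      · rw [tens_eq, pow_zero]
        exact Submodule.one_le.1 le_rfl
      · have h := reg_scale (u := x⁻¹) (v := y / x ^ n) (d := x⁻¹ ^ 2) reg_one
          (pow_mem (fst_mem _ _) _)
        rwa [one_mul] at h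
      · rw [pow_zero]
        exact reg_one
      · rw [pow_zero]
        exact reg_one
    | succ m ih =>
      have hA : Submodule.span K {(A : K → K)} * T1 K ^ m ≤
          Submodule.span K {S | IsSec n x y p 0 2 0 (m + 1) S} := by
        refine le_trans (mul_le_mul' le_rfl ih) ?_
        rw [Submodule.span_mul_span]
        refine Submodule.span_mono ?_
        rintro _ ⟨q, hq, S, hS, rfl⟩
        rw [Set.mem_singleton_iff] at hq
        subst hq
        have hAs : IsSec n x y p 0 0 0 1 (A : K → K) := by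
          have h := A_good F H
          refine ⟨?_, h.plane, ?_, ?_, fun i => ?_⟩
          · rw [tens_eq, pow_one]
            exact der_mem _
          · rw [pow_zero]; exact h.fibre
          · rw [pow_zero]; exact h.curve
          · rw [pow_zero]; exact h.exc i
        have h := sec_mul F hAs hS
        rw [zero_add, add_comm 1 m] at h
        exact h
      refine le_trans (top_le F H m) (sup_le ?_ hA)
      rw [Submodule.span_singleton_le_iff_mem]
      obtain ⟨P, T, hP, hT, e⟩ := sect F H m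
      have h1 : (B : K → K) ^ (m + 1) = (gg x p ^ ((m + 1 + 1) / 2))⁻¹ •
          (P - (A : K → K) * T) := by
        rw [e, add_sub_cancel_right, smul_smul, inv_mul_cancel₀ (pow_ne_zero _ (gg_ne F)),
          one_smul]
      rw [h1]
      refine Submodule.smul_mem _ _ (sub_mem (Submodule.subset_span hP) (hA ?_))
      exact Submodule.mul_mem_mul (Submodule.mem_span_singleton_self _) hT
  rw [tens_eq]
  refine le_trans (key m) (Submodule.span_mono fun S hS => ?_)
  exact sec_scale F (r := 6) hS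

end frame

end Pool.Agent.Helper11K9.TH
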