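import Pool.Agent.Helper11K9.TH.Exp

/-!
Laurent polynomials: division by powers of `g`.
-/

set_option autoImplicit false
set_option linter.unusedSectionVars false

open Polynomial

namespace Pool.Agent.Helper11K9.TH

variable {K : Type} [Field K] [Algebra ℂ K]

theorem poly_mem {R : Subalgebra ℂ K} {x : K} (hx : x ∈ R) (P : ℂ[X]) : aeval x P ∈ R := by
  rw [aeval_eq_sum_range]
  exact sum_mem fun i _ => R.smul_mem (pow_mem hx i) _

theorem inv_mem {x v : K} (h0 : x ≠ 0) {P : ℂ[X]} {N : ℕ} (hP : P.natDegree ≤ N) :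
    aeval x P * x⁻¹ ^ N ∈ chart x⁻¹ v := by
  rw [aeval_eq_sum_range, Finset.sum_mul]
  refine sum_mem fun i hi => ?_
  rw [Finset.mem_range] at hi
  have h1 : x ^ i * x⁻¹ ^ N = x⁻¹ ^ (N - i) := by
    obtain ⟨r, rfl⟩ := Nat.exists_eq_add_of_le (show i ≤ N by omega)
    rw [Nat.add_sub_cancel_left, pow_add, ← mul_assoc, ← mul_pow, mul_inv_cancel₀ h0, one_pow,
      one_mul]
  rw [smul_mul_assoc, h1]
  exact Subalgebra.smul_mem _ (pow_mem (fst_mem _ _) _) _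

theorem laurent {x a : K} (h0 : x ≠ 0) (ha : a ∈ chart x x⁻¹) :
    ∃ (N : ℕ) (P : ℂ[X]), a = aeval x P * x⁻¹ ^ N := by
  induction ha using Algebra.adjoin_induction with
  | mem z hz =>
    rcases hz with rfl | hz
    · exact ⟨0, X, by rw [aeval_X, pow_zero, mul_one]⟩
    · rw [Set.mem_singleton_iff] at hz
      exact ⟨1, 1, by rw [hz, map_one, pow_one, one_mul]⟩
  | algebraMap r => exact ⟨0, C r, by rw [aeval_C, pow_zero, mul_one]⟩
  | add a b _ _ h1 h2 =>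
    obtain ⟨N, P, rfl⟩ := h1
    obtain ⟨M, Q, rfl⟩ := h2
    refine ⟨N + M, P * X ^ M + Q * X ^ N, ?_⟩
    have e1 : x ^ M * x⁻¹ ^ M = 1 := by rw [← mul_pow, mul_inv_cancel₀ h0, one_pow]
    have e2 : x ^ N * x⁻¹ ^ N = 1 := by rw [← mul_pow, mul_inv_cancel₀ h0, one_pow]
    rw [map_add, map_mul, map_mul, map_pow, map_pow, aeval_X, pow_add]
    linear_combination -(aeval x P * x⁻¹ ^ N) * e1 - (aeval x Q * x⁻¹ ^ M) * e2
  | mul a b _ _ h1 h2 =>
    obtain ⟨N, P, rfl⟩ := h1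
    obtain ⟨M, Q, rfl⟩ := h2
    exact ⟨N + M, P * Q, by rw [map_mul, pow_add]; ring⟩

/-- the polynomial `g` -/
noncomputable def GG (p : Fin 4 → ℂ × ℂ) : ℂ[X] := ∏ i, (X - C (p i).1)

theorem GG_aeval (x : K) (p : Fin 4 → ℂ × ℂ) : aeval x (GG p) = gg x p := by
  unfold GG gg
  rw [map_prod]
  exact Finset.prod_congr rfl fun i _ => by rw [map_sub, aeval_X, aeval_C]

theorem GG_monic (p : Fin 4 → ℂ × ℂ) : (GG p).Monic := monic_prod_X_sub_C _ _

theorem GG_deg (p : Fin 4 → ℂ × ℂ) : (GG p).natDegree = 4 := by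
  unfold GG
  rw [natDegree_prod_of_monic _ _ fun i _ => monic_X_sub_C _]
  simp

theorem divide {x a : K} (h0 : x ≠ 0) (ha : a ∈ chart x x⁻¹) (p : Fin 4 → ℂ × ℂ) (k : ℕ) :
    ∃ (Q : ℂ[X]) (ρ : K), a = gg x p ^ k * aeval x Q + ρ ∧ ρ ∈ chart x x⁻¹ ∧
      ∀ v, ρ * (x * x⁻¹ ^ (4 * k)) ∈ chart x⁻¹ v := by
  obtain ⟨N, P, rfl⟩ := laurent h0 ha
  have hM : (X ^ N * GG p ^ k : ℂ[X]).Monic := (monic_X_pow N).mul ((GG_monic p).pow k)
  have hdeg : (X ^ N * GG p ^ k : ℂ[X]).natDegree = N + 4 * k := by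
    rw [(monic_X_pow N).natDegree_mul ((GG_monic p).pow k), natDegree_X_pow,
      (GG_monic p).natDegree_pow, GG_deg, mul_comm]
  obtain ⟨Q, hQ⟩ : ∃ Q, Q = P /ₘ (X ^ N * GG p ^ k) := ⟨_, rfl⟩
  obtain ⟨R, hR⟩ : ∃ R, R = P %ₘ (X ^ N * GG p ^ k) := ⟨_, rfl⟩
  have hPQR : P = R + X ^ N * GG p ^ k * Q := by
    rw [hQ, hR, modByMonic_add_div P (X ^ N * GG p ^ k)]
  have e2 : x ^ N * x⁻¹ ^ N = 1 := by rw [← mul_pow, mul_inv_cancel₀ h0, one_pow]
  refine ⟨Q, aeval x R * x⁻¹ ^ N, ?_, ?_, fun v => ?_⟩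
  · rw [hPQR, map_add, map_mul, map_mul, map_pow, map_pow, aeval_X, GG_aeval]
    linear_combination (gg x p ^ k * aeval x Q) * e2
  · exact mul_mem (poly_mem (fst_mem _ _) _) (pow_mem (snd_mem _ _) _)
  · by_cases h : N + 4 * k = 0
    · have h1 : R = 0 := by
        rw [hR]
        have h2 : (X ^ N * GG p ^ k : ℂ[X]) = 1 := by
          rw [show N = 0 by omega, show k = 0 by omega, pow_zero, pow_zero, mul_one]
        rw [h2, modByMonic_one]
      rw [h1, map_zero, zero_mul, zero_mul]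
      exact zero_mem _
    · have h1 : R.natDegree ≤ N + 4 * k - 1 := by
        have h2 : R.natDegree < (X ^ N * GG p ^ k : ℂ[X]).natDegree := by
          rw [hR]
          refine natDegree_modByMonic_lt P hM fun h3 => ?_
          rw [h3, natDegree_one] at hdeg
          exact h hdeg.symm
        omega
      have h2 := inv_mem (v := v) h0 h1
      have h3 : aeval x R * x⁻¹ ^ N * (x * x⁻¹ ^ (4 * k)) =
          aeval x R * x⁻¹ ^ (N + 4 * k - 1) := by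
        obtain ⟨r, hr⟩ : ∃ r, N + 4 * k = r + 1 := ⟨N + 4 * k - 1, by omega⟩
        rw [hr, Nat.add_sub_cancel]
        have h4 : x⁻¹ ^ N * x⁻¹ ^ (4 * k) = x⁻¹ ^ r * x⁻¹ := by
          rw [← pow_add, hr, pow_succ]
        have h5 : x⁻¹ * x = 1 := inv_mul_cancel₀ h0
        linear_combination (aeval x R * x) * h4 + aeval x R * x⁻¹ ^ r * h5
      rw [h3]
      exact h2

end Pool.Agent.Helper11K9.TH
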