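import Pool.Agent.Helper11K9.TH.Exp

/-!
The surfaces with `n ≤ 2`.
-/

set_option autoImplicit false
set_option linter.unusedSectionVars false
set_option linter.unusedSimpArgs false

open Polynomial

namespace Pool.Agent.Helper11K9.TH

variable {K : Type} [Field K] [Algebra ℂ K]

section frame

variable {n : ℕ} {x y : K} {Ex Ey : Derivation ℂ K K} (F : Fr x y Ex Ey)
  {p : Fin 4 → ℂ × ℂ}

include F

theorem c_inj {a b : ℂ} (h : algebraMap ℂ K a = algebraMap ℂ K b) : a = b :=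
  (algebraMap ℂ K).injective h

/-- `n = 0` -/
theorem gen_n0 (hx : ∀ i j, i ≠ j → (p i).1 ≠ (p j).1) (hy : ∀ i j, i ≠ j → (p i).2 ≠ (p j).2)
    (m : ℕ) : Tens K m ≤ Submodule.span K {S | IsSec 0 x y p 0 8 0 m S} := by
  obtain ⟨a, ax, ay, a1, a2, a3, a4, a5⟩ := zero_vf F (hx 0 1 (by decide)) (hy 0 1 (by decide))
  obtain ⟨b, bx, by', b1, b2, b3, b4, b5⟩ := zero_vf F (hx 2 3 (by decide)) (hy 2 3 (by decide))
  obtain ⟨c, cx, cy, c1, c2, c3, c4, c5⟩ := zero_vf F (hx 0 2 (by decide)) (hy 0 2 (by decide))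
  obtain ⟨d, dx, dy, d1, d2, d3, d4, d5⟩ := zero_vf F (hx 1 3 (by decide)) (hy 1 3 (by decide))
  have key : ∀ {q r s : ℂ × ℂ}, q.1 ≠ r.1 → q.1 ≠ s.1 → r.1 ≠ s.1 → q.2 ≠ r.2 → q.2 ≠ s.2 →
      r.2 ≠ s.2 → (algebraMap ℂ K (q.1 - r.1)⁻¹ * algebraMap ℂ K (q.2 - s.2)⁻¹) *
        ((x - algebraMap ℂ K r.1) * (y - algebraMap ℂ K s.2)) -
        (algebraMap ℂ K (q.2 - r.2)⁻¹ * algebraMap ℂ K (q.1 - s.1)⁻¹) *
        ((x - algebraMap ℂ K s.1) * (y - algebraMap ℂ K r.2)) ≠ 0 := by
    intro q r s h1 h2 h3 h4 h5 h6 h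
    rw [← map_mul, ← map_mul] at h
    have hA : (q.1 - r.1)⁻¹ * (q.2 - s.2)⁻¹ ≠ 0 :=
      mul_ne_zero (inv_ne_zero (sub_ne_zero.2 h1)) (inv_ne_zero (sub_ne_zero.2 h5))
    set A := (q.1 - r.1)⁻¹ * (q.2 - s.2)⁻¹
    set B := (q.2 - r.2)⁻¹ * (q.1 - s.1)⁻¹
    have e1 := congrArg Ex h
    have e2 := congrArg Ey e1
    simp only [map_sub, Derivation.leibniz, Derivation.map_algebraMap, F.xx, F.xy, F.yx, F.yy,
      map_zero, smul_eq_mul, mul_zero, mul_one, zero_add, add_zero, sub_zero, map_one] at e1 e2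
    have e3 : A = B := by
      apply c_inj F
      exact sub_eq_zero.1 e2
    rw [← e3, ← mul_sub] at e1
    rcases mul_eq_zero.1 e1 with e4 | e4
    · rw [← map_zero (algebraMap ℂ K)] at e4
      exact hA (c_inj F e4)
    · have e5 : algebraMap ℂ K s.2 = algebraMap ℂ K r.2 := by linear_combination -e4
      exact h6 (c_inj F e5).symm
  refine pair_gen F (a := a) (b := b) (c := c) (d := d) ?_ ?_ ?_ ?_ ?_ ?_ m
  · -- common point 0: q = p 0, r = p 1, s = p 2
    have h := key (hx 0 1 (by decide)) (hx 0 2 (by decide)) (hx 1 2 (by decide))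
      (hy 0 1 (by decide)) (hy 0 2 (by decide)) (hy 1 2 (by decide))
    have h' := mul_ne_zero (mul_ne_zero (x_ne F (p 0).1) (y_ne F (p 0).2)) h
    intro h0
    apply h'
    rw [← h0, ax, ay, cx, cy]
    ring
  · -- common point 1: q = p 1, r = p 0, s = p 3
    have h := key (hx 1 0 (by decide)) (hx 1 3 (by decide)) (hx 0 3 (by decide))
      (hy 1 0 (by decide)) (hy 1 3 (by decide)) (hy 0 3 (by decide))
    have h' := mul_ne_zero (mul_ne_zero (x_ne F (p 1).1) (y_ne F (p 1).2)) h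
    intro h0
    apply h'
    have e1 : ((p 1).1 - (p 0).1)⁻¹ = -((p 0).1 - (p 1).1)⁻¹ := by rw [← inv_neg, neg_sub]
    have e2 : ((p 1).2 - (p 0).2)⁻¹ = -((p 0).2 - (p 1).2)⁻¹ := by rw [← inv_neg, neg_sub]
    rw [e1, e2, map_neg, map_neg]
    have h9 := congrArg (fun z => -z) h0
    simp only [neg_zero] at h9
    rw [← h9, ax, ay, dx, dy]
    ring
  · -- common point 2: b = (2,3), c = (0,2)
    have h := key (hx 2 3 (by decide)) (hx 2 0 (by decide)) (hx 3 0 (by decide))
      (hy 2 3 (by decide)) (hy 2 0 (by decide)) (hy 3 0 (by decide))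
    have h' := mul_ne_zero (mul_ne_zero (x_ne F (p 2).1) (y_ne F (p 2).2)) h
    intro h0
    apply h'
    have e1 : ((p 2).1 - (p 0).1)⁻¹ = -((p 0).1 - (p 2).1)⁻¹ := by rw [← inv_neg, neg_sub]
    have e2 : ((p 2).2 - (p 0).2)⁻¹ = -((p 0).2 - (p 2).2)⁻¹ := by rw [← inv_neg, neg_sub]
    rw [e1, e2, map_neg, map_neg]
    have h9 := congrArg (fun z => -z) h0
    simp only [neg_zero] at h9
    rw [← h9, bx, by', cx, cy]
    ring
  · -- common point 3: b = (2,3), d = (1,3)
    have h := key (hx 3 2 (by decide)) (hx 3 1 (by decide)) (hx 2 1 (by decide))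
      (hy 3 2 (by decide)) (hy 3 1 (by decide)) (hy 2 1 (by decide))
    have h' := mul_ne_zero (mul_ne_zero (x_ne F (p 3).1) (y_ne F (p 3).2)) h
    intro h0
    apply h'
    have e1 : ((p 3).1 - (p 2).1)⁻¹ = -((p 2).1 - (p 3).1)⁻¹ := by rw [← inv_neg, neg_sub]
    have e2 : ((p 3).2 - (p 2).2)⁻¹ = -((p 2).2 - (p 3).2)⁻¹ := by rw [← inv_neg, neg_sub]
    have e3 : ((p 3).1 - (p 1).1)⁻¹ = -((p 1).1 - (p 3).1)⁻¹ := by rw [← inv_neg, neg_sub]
    have e4 : ((p 3).2 - (p 1).2)⁻¹ = -((p 1).2 - (p 3).2)⁻¹ := by rw [← inv_neg, neg_sub]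
    rw [e1, e2, e3, e4, map_neg, map_neg, map_neg, map_neg]
    rw [← h0, bx, by', dx, dy]
    ring
  · refine good_prod F one_ne_zero a1 b1 a2 (by rw [inv_one]; exact b2) a3 b3 fun i => ?_
    fin_cases i
    · exact Or.inl a4
    · exact Or.inl a5
    · exact Or.inr b4
    · exact Or.inr b5
  · refine good_prod F one_ne_zero c1 d1 c2 (by rw [inv_one]; exact d2) c3 d3 fun i => ?_
    fin_cases i
    · exact Or.inl c4
    · exact Or.inr d4
    · exact Or.inl c5
    · exact Or.inr d5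

/-- `n = 2` -/
theorem gen_n2 (hx : ∀ i j, i ≠ j → (p i).1 ≠ (p j).1) (m : ℕ) :
    Tens K m ≤ Submodule.span K {S | IsSec 2 x y p 0 8 0 m S} := by
  have hk : ∀ i j, i ≠ j → ∃ κ : ℂ, κ * ((p i).1 - (p j).1) = (p i).2 - (p j).2 := fun i j hij =>
    ⟨((p i).2 - (p j).2) / ((p i).1 - (p j).1), div_mul_cancel₀ _ (sub_ne_zero.2 (hx i j hij))⟩
  obtain ⟨ka, hka⟩ := hk 0 1 (by decide)
  obtain ⟨kb, hkb⟩ := hk 2 3 (by decide)
  obtain ⟨kc, hkc⟩ := hk 0 2 (by decide)
  obtain ⟨kd, hkd⟩ := hk 1 3 (by decide)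
  obtain ⟨a, ax, ay, a1, a2, a3, a4, a5⟩ := two_vf F hka
  obtain ⟨b, bx, by', b1, b2, b3, b4, b5⟩ := two_vf F hkb
  obtain ⟨c, cx, cy, c1, c2, c3, c4, c5⟩ := two_vf F hkc
  obtain ⟨d, dx, dy, d1, d2, d3, d4, d5⟩ := two_vf F hkd
  -- the derivative of the determinant with respect to `y`
  have key : ∀ {q r s t : ℂ × ℂ} {κ κ' : ℂ} {D E : Derivation ℂ K K},
      D x = (x - algebraMap ℂ K q.1) * (x - algebraMap ℂ K r.1) →
      D y = algebraMap ℂ K κ * ((x - algebraMap ℂ K q.1) * (x - algebraMap ℂ K r.1)) +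
        (y - (algebraMap ℂ K q.2 + algebraMap ℂ K κ * (x - algebraMap ℂ K q.1))) *
          ((x - algebraMap ℂ K q.1) + (x - algebraMap ℂ K r.1)) →
      E x = (x - algebraMap ℂ K s.1) * (x - algebraMap ℂ K t.1) →
      E y = algebraMap ℂ K κ' * ((x - algebraMap ℂ K s.1) * (x - algebraMap ℂ K t.1)) +
        (y - (algebraMap ℂ K s.2 + algebraMap ℂ K κ' * (x - algebraMap ℂ K s.1))) *
          ((x - algebraMap ℂ K s.1) + (x - algebraMap ℂ K t.1)) →
      (q.1 + r.1 - s.1 - t.1 ≠ 0 ∨ q.1 * r.1 - s.1 * t.1 ≠ 0) → D x * E y - D y * E x ≠ 0 := by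
    intro q r s t κ κ' D E h1 h2 h3 h4 h5 h6
    rw [h1, h2, h3, h4] at h6
    have e1 := congrArg Ey h6
    simp only [map_add, map_sub, Derivation.leibniz, Derivation.map_algebraMap, F.yx, F.yy,
      map_zero, smul_eq_mul, mul_zero, mul_one, zero_add, add_zero, sub_zero, zero_sub, map_one,
      neg_zero] at e1
    have e3 := congrArg Ex e1
    simp only [map_add, map_sub, Derivation.leibniz, Derivation.map_algebraMap, F.xx, F.xy,
      map_zero, smul_eq_mul, mul_zero, mul_one, zero_add, add_zero, sub_zero, map_one] at e3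
    have e4 := congrArg Ex e3
    simp only [map_add, map_sub, Derivation.leibniz, Derivation.map_algebraMap, F.xx, F.xy,
      map_zero, smul_eq_mul, mul_zero, mul_one, zero_add, add_zero, sub_zero,
      Derivation.map_one_eq_zero] at e4
    have e5 : algebraMap ℂ K (q.1 + r.1 - s.1 - t.1) = 0 := by
      rw [map_sub, map_sub, map_add]
      have h2 : (2 : K) ≠ 0 := by
        have : (2 : K) = algebraMap ℂ K 2 := by rw [map_ofNat]
        rw [this]
        intro h
        rw [← map_zero (algebraMap ℂ K)] at h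
        exact two_ne_zero (c_inj F h)
      apply mul_left_cancel₀ h2
      first
        | linear_combination e4
        | linear_combination -e4
    have e6 : q.1 + r.1 - s.1 - t.1 = 0 := by
      rw [← map_zero (algebraMap ℂ K)] at e5
      exact c_inj F e5
    have e7 : algebraMap ℂ K (q.1 * r.1 - s.1 * t.1) = 0 := by
      rw [map_sub, map_mul, map_mul]
      rw [map_sub, map_sub, map_add] at e5
      have h2 : (2 : K) ≠ 0 := by
        have : (2 : K) = algebraMap ℂ K 2 := by rw [map_ofNat]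
        rw [this]
        intro h
        rw [← map_zero (algebraMap ℂ K)] at h
        exact two_ne_zero (c_inj F h)
      apply mul_left_cancel₀ h2
      first
        | linear_combination e3 + 2 * x * e5
        | linear_combination -e3 + 2 * x * e5
        | linear_combination e3 - 2 * x * e5
        | linear_combination -e3 - 2 * x * e5
    have e8 : q.1 * r.1 - s.1 * t.1 = 0 := by
      rw [← map_zero (algebraMap ℂ K)] at e7
      exact c_inj F e7
    rcases h5 with h5 | h5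
    · exact h5 e6
    · exact h5 e8
  refine pair_gen F (a := a) (b := b) (c := c) (d := d) ?_ ?_ ?_ ?_ ?_ ?_ m
  · refine key ax ay cx cy (Or.inl fun h => hx 1 2 (by decide) (by linear_combination h))
  · refine key ax ay dx dy (Or.inl fun h => hx 0 3 (by decide) (by linear_combination h))
  · refine key bx by' cx cy (Or.inl fun h => hx 3 0 (by decide) (by linear_combination h))
  · refine key bx by' dx dy (Or.inl fun h => hx 2 1 (by decide) (by linear_combination h))
  · refine good_prod F one_ne_zero a1 b1 a2 (by rw [inv_one]; exact b2) a3 b3 fun i => ?_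
    fin_cases i
    · exact Or.inl a4
    · exact Or.inl a5
    · exact Or.inr b4
    · exact Or.inr b5
  · refine good_prod F one_ne_zero c1 d1 c2 (by rw [inv_one]; exact d2) c3 d3 fun i => ?_
    fin_cases i
    · exact Or.inl c4
    · exact Or.inr d4
    · exact Or.inl c5
    · exact Or.inr d5

end frame

end Pool.Agent.Helper11K9.TH
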