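import Pool.Agent.Helper11K9.TH.One
import Pool.Agent.Helper11K9.TH.Gen

/-!
The blow-up of a Hirzebruch surface at four points: generation of the twisted symmetric powers of the
tangent bundle.
-/

set_option autoImplicit false
set_option linter.unusedSectionVars false

open Polynomial

namespace Pool.Agent.Helper11K9.TH

variable {K : Type} [Field K] [Algebra ℂ K]

/-- quadratic interpolation -/
theorem interp {a b c : ℂ} (hab : a ≠ b) (hac : a ≠ c) (hbc : b ≠ c) (u v w : ℂ) :
    ∃ Γ c1 c0 : ℂ, u = Γ * a ^ 2 + c1 * a + c0 ∧ v = Γ * b ^ 2 + c1 * b + c0 ∧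
      w = Γ * c ^ 2 + c1 * c + c0 := by
  have h1 := sub_ne_zero.2 hab
  have h2 := sub_ne_zero.2 hac
  have h3 := sub_ne_zero.2 hbc
  refine ⟨u / ((a - b) * (a - c)) - v / ((a - b) * (b - c)) + w / ((a - c) * (b - c)),
    -(u * (b + c) / ((a - b) * (a - c)) - v * (a + c) / ((a - b) * (b - c)) +
      w * (a + b) / ((a - c) * (b - c))),
    u * (b * c) / ((a - b) * (a - c)) - v * (a * c) / ((a - b) * (b - c)) +
      w * (a * b) / ((a - c) * (b - c)), ?_, ?_, ?_⟩ <;>
  · field_simp
    ring

section frame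

variable {n : ℕ} {x y : K} {Ex Ey : Derivation ℂ K K} (F : Fr x y Ex Ey)
  {p : Fin 4 → ℂ × ℂ}

include F

theorem star {c : ℂ[X]} (hc : c.natDegree ≤ n) (hv : ∀ i, c.eval (p i).1 = (p i).2) (m : ℕ) :
    Tens K m ≤ Submodule.span K {S | IsSec n x y p 0 8 0 m S} := by
  obtain ⟨A, h1, h2⟩ := exists_vf F 0 (y - aeval x c)
  obtain ⟨B, h3, h4⟩ := exists_vf F 1 (aeval x (derivative c))
  exact gen_star F (A := A) (B := B) ⟨h1, h2, h3, h4, hc, hv⟩ m

theorem main (hx : ∀ i j, i ≠ j → (p i).1 ≠ (p j).1)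
    (hy : n = 0 → ∀ i j, i ≠ j → (p i).2 ≠ (p j).2) (m : ℕ) :
    Tens K m ≤ Submodule.span K {S | IsSec n x y p 0 8 0 m S} := by
  rcases Nat.lt_or_ge n 3 with hn | hn
  · rcases (show n = 0 ∨ n = 1 ∨ n = 2 by omega) with rfl | rfl | rfl
    · exact gen_n0 F hx (hy rfl) m
    · obtain ⟨Γ, c1, c0, h1, h2, h3⟩ := interp (hx 1 2 (by decide)) (hx 1 3 (by decide))
        (hx 2 3 (by decide)) (p 1).2 (p 2).2 (p 3).2
      obtain ⟨Δ, d1, d0, k0, k2, k3⟩ := interp (hx 0 2 (by decide)) (hx 0 3 (by decide))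
        (hx 2 3 (by decide)) (p 0).2 (p 2).2 (p 3).2
      by_cases hne : Γ = 0 ∧ Δ = 0
      · obtain ⟨rfl, rfl⟩ := hne
        have e1 : (c1 - d1) * ((p 2).1 - (p 3).1) = 0 := by
          linear_combination -h2 + h3 + k2 - k3
        have e2 : c1 = d1 := by
          rcases mul_eq_zero.1 e1 with h | h
          · exact sub_eq_zero.1 h
          · exact absurd (sub_eq_zero.1 h) (hx 2 3 (by decide))
        subst e2
        have e3 : c0 = d0 := by linear_combination -h2 + k2
        subst e3
        refine star F (c := C c1 * X + C c0) natDegree_linear_le (fun i => ?_) m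
        rw [eval_add, eval_mul, eval_C, eval_X, eval_C]
        fin_cases i
        · exact (by linear_combination -k0 : c1 * (p 0).1 + c0 = (p 0).2)
        · exact (by linear_combination -h1 : c1 * (p 1).1 + c0 = (p 1).2)
        · exact (by linear_combination -h2 : c1 * (p 2).1 + c0 = (p 2).2)
        · exact (by linear_combination -h3 : c1 * (p 3).1 + c0 = (p 3).2)
      · exact gen_n1 F hx h1 h2 h3 k0 k2 k3 hne m
    · exact gen_n2 F hx m
  · have hinj : Set.InjOn (fun i => (p i).1) (Finset.univ : Finset (Fin 4)) := by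
      intro i _ j _ h
      by_contra hij
      exact hx i j hij h
    refine star F (c := Lagrange.interpolate Finset.univ (fun i => (p i).1) (fun i => (p i).2))
      ?_ (fun i => ?_) m
    · have h := Lagrange.degree_interpolate_lt (r := fun i => (p i).2) hinj
      rw [Finset.card_univ, Fintype.card_fin] at h
      have h2 : (Lagrange.interpolate Finset.univ (fun i => (p i).1)
          (fun i => (p i).2)).natDegree < 4 := by
        rcases eq_or_ne (Lagrange.interpolate Finset.univ (fun i => (p i).1)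
          (fun i => (p i).2)) 0 with h3 | h3
        · rw [h3, natDegree_zero]
          norm_num
        · exact (natDegree_lt_iff_degree_lt h3).2 h
      omega
    · exact Lagrange.eval_interpolate_at_node (fun i => (p i).2) hinj (Finset.mem_univ i)

end frame

/-- the function field of the plane -/
theorem frame : ∃ Ex Ey : Derivation ℂ (FractionRing (MvPolynomial (Fin 2) ℂ))
    (FractionRing (MvPolynomial (Fin 2) ℂ)),
    Fr (algebraMap (MvPolynomial (Fin 2) ℂ) (FractionRing (MvPolynomial (Fin 2) ℂ))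
      (MvPolynomial.X 0)) (algebraMap (MvPolynomial (Fin 2) ℂ)
      (FractionRing (MvPolynomial (Fin 2) ℂ)) (MvPolynomial.X 1)) Ex Ey := by
  have halg : Algebra.IsAlgebraic (MvPolynomial (Fin 2) ℂ)
      (FractionRing (MvPolynomial (Fin 2) ℂ)) :=
    IsLocalization.isAlgebraic _ (nonZeroDivisors (MvPolynomial (Fin 2) ℂ))
  have hb : IsTranscendenceBasis ℂ (algebraMap (MvPolynomial (Fin 2) ℂ)
      (FractionRing (MvPolynomial (Fin 2) ℂ)) ∘ MvPolynomial.X) :=
    (IsTranscendenceBasis.mvPolynomial (Fin 2) ℂ).algebraMap_comp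
  obtain ⟨Ex, hEx⟩ := Pool.Agent.W619.PQ.exists_dual _ hb 0
  obtain ⟨Ey, hEy⟩ := Pool.Agent.W619.PQ.exists_dual _ hb 1
  refine ⟨Ex, Ey, ?_, ?_, ?_, ?_, ?_⟩
  · simpa using hEx 0
  · simpa using hEx 1
  · simpa using hEy 0
  · simpa using hEy 1
  · rw [eq_top_iff]
    intro z _
    obtain ⟨a, b, -, rfl⟩ := IsFractionRing.div_surjective (A := MvPolynomial (Fin 2) ℂ) z
    have h : ∀ a : MvPolynomial (Fin 2) ℂ, algebraMap (MvPolynomial (Fin 2) ℂ)
        (FractionRing (MvPolynomial (Fin 2) ℂ)) a ∈ IntermediateField.adjoin ℂ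
        ({algebraMap (MvPolynomial (Fin 2) ℂ) (FractionRing (MvPolynomial (Fin 2) ℂ))
          (MvPolynomial.X 0), algebraMap (MvPolynomial (Fin 2) ℂ)
          (FractionRing (MvPolynomial (Fin 2) ℂ)) (MvPolynomial.X 1)} :
          Set (FractionRing (MvPolynomial (Fin 2) ℂ))) := by
      intro a
      induction a using MvPolynomial.induction_on with
      | C r =>
        rw [← MvPolynomial.algebraMap_eq, ← IsScalarTower.algebraMap_apply]
        exact IntermediateField.algebraMap_mem _ _
      | add p q hp hq =>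
        rw [map_add]
        exact add_mem hp hq
      | mul_X p i hp =>
        rw [map_mul]
        refine mul_mem hp (IntermediateField.subset_adjoin _ _ ?_)
        fin_cases i
        · exact Or.inl rfl
        · exact Or.inr rfl
    exact div_mem (h a) (h b)

end Pool.Agent.Helper11K9.TH
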