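import Pool.Agent.Helper11K9.TH.Low

/-!
The surface with `n = 1`.
-/

set_option autoImplicit false
set_option linter.unusedSectionVars false
set_option linter.unusedSimpArgs false

open Polynomial

namespace Pool.Agent.Helper11K9.TH

variable {K : Type} [Field K] [Algebra ℂ K]

section frame

variable {n : ℕ} {x y : K} {Ex Ey : Derivation ℂ K K} (F : Fr x y Ex Ey)
  {p : Fin 4 → ℂ × ℂ}

include F

/-- the radial vector field -/
theorem rad_vf (q : ℂ × ℂ) : ∃ D : Derivation ℂ K K,
    D x = x - algebraMap ℂ K q.1 ∧ D y = y - algebraMap ℂ K q.2 ∧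
    Reg x y 1 D ∧ Reg x⁻¹ (y / x ^ 1) x D ∧ Reg x y⁻¹ 1 D ∧
    Reg x (tt x y q) (x - algebraMap ℂ K q.1)⁻¹ D := by
  obtain ⟨D, hx, hy⟩ := exists_vf F (x - algebraMap ℂ K q.1) (y - algebraMap ℂ K q.2)
  have h0 := x0 F
  have h0y := y0 F
  refine ⟨D, hx, hy, ?_, ?_, ?_, ?_⟩
  · refine reg_der D ?_ ?_
    · rw [one_mul, hx]; (repeat' first
          | exact fst_mem _ _ | exact snd_mem _ _ | exact c_mem _ _ | exact zero_mem _
          | exact one_mem _ | exact natCast_mem _ _ | exact ofNat_mem _ _ | apply add_mem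
          | apply sub_mem | apply mul_mem | apply neg_mem | apply pow_mem)
    · rw [one_mul, hy]; (repeat' first
          | exact fst_mem _ _ | exact snd_mem _ _ | exact c_mem _ _ | exact zero_mem _
          | exact one_mem _ | exact natCast_mem _ _ | exact ofNat_mem _ _ | apply add_mem
          | apply sub_mem | apply mul_mem | apply neg_mem | apply pow_mem)
  · rw [pow_one]
    refine reg_der D ?_ ?_
    · have h : x * D x⁻¹ = -(1 - algebraMap ℂ K q.1 * x⁻¹) := by
        rw [der_inv F, hx]
        field_simp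
      rw [h]; (repeat' first
          | exact fst_mem _ _ | exact snd_mem _ _ | exact c_mem _ _ | exact zero_mem _
          | exact one_mem _ | exact natCast_mem _ _ | exact ofNat_mem _ _ | apply add_mem
          | apply sub_mem | apply mul_mem | apply neg_mem | apply pow_mem)
    · have h : x * D (y / x) = algebraMap ℂ K q.1 * (y / x) - algebraMap ℂ K q.2 := by
        rw [Derivation.leibniz_div, hx, hy, smul_eq_mul, smul_eq_mul, smul_eq_mul]
        field_simp
        ring
      rw [h]; (repeat' first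
          | exact fst_mem _ _ | exact snd_mem _ _ | exact c_mem _ _ | exact zero_mem _
          | exact one_mem _ | exact natCast_mem _ _ | exact ofNat_mem _ _ | apply add_mem
          | apply sub_mem | apply mul_mem | apply neg_mem | apply pow_mem)
  · refine reg_der D ?_ ?_
    · rw [one_mul, hx]; (repeat' first
          | exact fst_mem _ _ | exact snd_mem _ _ | exact c_mem _ _ | exact zero_mem _
          | exact one_mem _ | exact natCast_mem _ _ | exact ofNat_mem _ _ | apply add_mem
          | apply sub_mem | apply mul_mem | apply neg_mem | apply pow_mem)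
    · have h : 1 * D y⁻¹ = -y⁻¹ + algebraMap ℂ K q.2 * y⁻¹ ^ 2 := by
        rw [der_inv F, hy]
        field_simp
        ring
      rw [h]; (repeat' first
          | exact fst_mem _ _ | exact snd_mem _ _ | exact c_mem _ _ | exact zero_mem _
          | exact one_mem _ | exact natCast_mem _ _ | exact ofNat_mem _ _ | apply add_mem
          | apply sub_mem | apply mul_mem | apply neg_mem | apply pow_mem)
  · have ht := tt_mul F q
    refine exc_inv F q D (E1 := 1) (E2 := 0) (by rw [hx, mul_one]) ?_ (by (repeat' first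
          | exact fst_mem _ _ | exact snd_mem _ _ | exact c_mem _ _ | exact zero_mem _
          | exact one_mem _ | exact natCast_mem _ _ | exact ofNat_mem _ _ | apply add_mem
          | apply sub_mem | apply mul_mem | apply neg_mem | apply pow_mem)) (by (repeat' first
          | exact fst_mem _ _ | exact snd_mem _ _ | exact c_mem _ _ | exact zero_mem _
          | exact one_mem _ | exact natCast_mem _ _ | exact ofNat_mem _ _ | apply add_mem
          | apply sub_mem | apply mul_mem | apply neg_mem | apply pow_mem))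
    rw [hx, hy, ht]
    ring

/-- the vector field tangent to the conics through three points -/
theorem con_vf {q r s : ℂ × ℂ} {Γ c1 c0 : ℂ} (hq : q.2 = Γ * q.1 ^ 2 + c1 * q.1 + c0)
    (hr : r.2 = Γ * r.1 ^ 2 + c1 * r.1 + c0) (hs : s.2 = Γ * s.1 ^ 2 + c1 * s.1 + c0) :
    ∃ D : Derivation ℂ K K,
      D x = -(algebraMap ℂ K Γ * ((x - algebraMap ℂ K q.1) * (x - algebraMap ℂ K r.1) *
        (x - algebraMap ℂ K s.1))) ∧
      D y = -(algebraMap ℂ K Γ * ((x - algebraMap ℂ K q.1) * (x - algebraMap ℂ K r.1) *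
        (x - algebraMap ℂ K s.1)) * (2 * algebraMap ℂ K Γ * x + algebraMap ℂ K c1) +
        (y - (algebraMap ℂ K Γ * x ^ 2 + algebraMap ℂ K c1 * x + algebraMap ℂ K c0)) ^ 2 +
        algebraMap ℂ K Γ * ((x - algebraMap ℂ K q.1) * (x - algebraMap ℂ K r.1) +
          (x - algebraMap ℂ K q.1) * (x - algebraMap ℂ K s.1) +
          (x - algebraMap ℂ K r.1) * (x - algebraMap ℂ K s.1)) *
        (y - (algebraMap ℂ K Γ * x ^ 2 + algebraMap ℂ K c1 * x + algebraMap ℂ K c0))) ∧
      Reg x y 1 D ∧ Reg x⁻¹ (y / x ^ 1) x⁻¹ D ∧ Reg x y⁻¹ 1 D ∧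
      Reg x (tt x y q) (x - algebraMap ℂ K q.1)⁻¹ D ∧
      Reg x (tt x y r) (x - algebraMap ℂ K r.1)⁻¹ D ∧
      Reg x (tt x y s) (x - algebraMap ℂ K s.1)⁻¹ D := by
  obtain ⟨D, hx, hy⟩ := exists_vf F
    (-(algebraMap ℂ K Γ * ((x - algebraMap ℂ K q.1) * (x - algebraMap ℂ K r.1) *
        (x - algebraMap ℂ K s.1))))
    (-(algebraMap ℂ K Γ * ((x - algebraMap ℂ K q.1) * (x - algebraMap ℂ K r.1) *
        (x - algebraMap ℂ K s.1)) * (2 * algebraMap ℂ K Γ * x + algebraMap ℂ K c1) +
        (y - (algebraMap ℂ K Γ * x ^ 2 + algebraMap ℂ K c1 * x + algebraMap ℂ K c0)) ^ 2 +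
        algebraMap ℂ K Γ * ((x - algebraMap ℂ K q.1) * (x - algebraMap ℂ K r.1) +
          (x - algebraMap ℂ K q.1) * (x - algebraMap ℂ K s.1) +
          (x - algebraMap ℂ K r.1) * (x - algebraMap ℂ K s.1)) *
        (y - (algebraMap ℂ K Γ * x ^ 2 + algebraMap ℂ K c1 * x + algebraMap ℂ K c0))))
  have h0 := x0 F
  have h0y := y0 F
  have hval : ∀ {z : ℂ × ℂ}, z.2 = Γ * z.1 ^ 2 + c1 * z.1 + c0 → algebraMap ℂ K z.2 =
      algebraMap ℂ K Γ * algebraMap ℂ K z.1 ^ 2 + algebraMap ℂ K c1 * algebraMap ℂ K z.1 +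
        algebraMap ℂ K c0 := fun h => by
    rw [h, map_add, map_add, map_mul, map_mul, map_pow]
  have hvq := hval hq
  have hvr := hval hr
  have hvs := hval hs
  refine ⟨D, hx, hy, ?_, ?_, ?_, ?_, ?_, ?_⟩
  · refine reg_der D ?_ ?_
    · rw [one_mul, hx]; (repeat' first
          | exact fst_mem _ _ | exact snd_mem _ _ | exact c_mem _ _ | exact zero_mem _
          | exact one_mem _ | exact natCast_mem _ _ | exact ofNat_mem _ _ | apply add_mem
          | apply sub_mem | apply mul_mem | apply neg_mem | apply pow_mem)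
    · rw [one_mul, hy]; (repeat' first
          | exact fst_mem _ _ | exact snd_mem _ _ | exact c_mem _ _ | exact zero_mem _
          | exact one_mem _ | exact natCast_mem _ _ | exact ofNat_mem _ _ | apply add_mem
          | apply sub_mem | apply mul_mem | apply neg_mem | apply pow_mem)
  · rw [pow_one]
    refine reg_der D ?_ ?_
    · have h : x⁻¹ * D x⁻¹ = algebraMap ℂ K Γ * ((1 - algebraMap ℂ K q.1 * x⁻¹) *
          (1 - algebraMap ℂ K r.1 * x⁻¹) * (1 - algebraMap ℂ K s.1 * x⁻¹)) := by
        rw [der_inv F, hx]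
        field_simp
      rw [h]; (repeat' first
          | exact fst_mem _ _ | exact snd_mem _ _ | exact c_mem _ _ | exact zero_mem _
          | exact one_mem _ | exact natCast_mem _ _ | exact ofNat_mem _ _ | apply add_mem
          | apply sub_mem | apply mul_mem | apply neg_mem | apply pow_mem)
    · have h : x⁻¹ * D (y / x) = -((y / x) ^ 2) + (y / x) * (2 * algebraMap ℂ K c1 +
          algebraMap ℂ K Γ * (algebraMap ℂ K q.1 + algebraMap ℂ K r.1 + algebraMap ℂ K s.1) +
          2 * algebraMap ℂ K c0 * x⁻¹ -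
          algebraMap ℂ K Γ * (algebraMap ℂ K q.1 * algebraMap ℂ K r.1 * algebraMap ℂ K s.1) *
            x⁻¹ ^ 2) +
          ((algebraMap ℂ K Γ * algebraMap ℂ K c0 - algebraMap ℂ K Γ * (algebraMap ℂ K q.1 +
            algebraMap ℂ K r.1 + algebraMap ℂ K s.1) * algebraMap ℂ K c1 -
            algebraMap ℂ K Γ ^ 2 * (algebraMap ℂ K q.1 * algebraMap ℂ K r.1 +
            algebraMap ℂ K q.1 * algebraMap ℂ K s.1 + algebraMap ℂ K r.1 * algebraMap ℂ K s.1) -
            algebraMap ℂ K c1 ^ 2) +
          (2 * algebraMap ℂ K Γ ^ 2 * (algebraMap ℂ K q.1 * algebraMap ℂ K r.1 *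
            algebraMap ℂ K s.1) - 2 * algebraMap ℂ K Γ * (algebraMap ℂ K q.1 +
            algebraMap ℂ K r.1 + algebraMap ℂ K s.1) * algebraMap ℂ K c0 -
            2 * algebraMap ℂ K c1 * algebraMap ℂ K c0) * x⁻¹ +
          (algebraMap ℂ K Γ * (algebraMap ℂ K q.1 * algebraMap ℂ K r.1 +
            algebraMap ℂ K q.1 * algebraMap ℂ K s.1 + algebraMap ℂ K r.1 * algebraMap ℂ K s.1) *
            algebraMap ℂ K c0 + algebraMap ℂ K Γ * (algebraMap ℂ K q.1 * algebraMap ℂ K r.1 *
            algebraMap ℂ K s.1) * algebraMap ℂ K c1 - algebraMap ℂ K c0 ^ 2) * x⁻¹ ^ 2) := by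
        rw [Derivation.leibniz_div, hx, hy, smul_eq_mul, smul_eq_mul, smul_eq_mul]
        field_simp
        ring
      rw [h]; (repeat' first
          | exact fst_mem _ _ | exact snd_mem _ _ | exact c_mem _ _ | exact zero_mem _
          | exact one_mem _ | exact natCast_mem _ _ | exact ofNat_mem _ _ | apply add_mem
          | apply sub_mem | apply mul_mem | apply neg_mem | apply pow_mem)
  · refine reg_der D ?_ ?_
    · rw [one_mul, hx]; (repeat' first
          | exact fst_mem _ _ | exact snd_mem _ _ | exact c_mem _ _ | exact zero_mem _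
          | exact one_mem _ | exact natCast_mem _ _ | exact ofNat_mem _ _ | apply add_mem
          | apply sub_mem | apply mul_mem | apply neg_mem | apply pow_mem)
    · have h : 1 * D y⁻¹ = algebraMap ℂ K Γ * ((x - algebraMap ℂ K q.1) *
          (x - algebraMap ℂ K r.1) * (x - algebraMap ℂ K s.1)) *
          (2 * algebraMap ℂ K Γ * x + algebraMap ℂ K c1) * y⁻¹ ^ 2 +
          (1 - (algebraMap ℂ K Γ * x ^ 2 + algebraMap ℂ K c1 * x + algebraMap ℂ K c0) *
            y⁻¹) ^ 2 +
          algebraMap ℂ K Γ * ((x - algebraMap ℂ K q.1) * (x - algebraMap ℂ K r.1) +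
          (x - algebraMap ℂ K q.1) * (x - algebraMap ℂ K s.1) +
          (x - algebraMap ℂ K r.1) * (x - algebraMap ℂ K s.1)) *
          (y⁻¹ - (algebraMap ℂ K Γ * x ^ 2 + algebraMap ℂ K c1 * x + algebraMap ℂ K c0) *
            y⁻¹ ^ 2) := by
        rw [der_inv F, hy]
        field_simp
      rw [h]; (repeat' first
          | exact fst_mem _ _ | exact snd_mem _ _ | exact c_mem _ _ | exact zero_mem _
          | exact one_mem _ | exact natCast_mem _ _ | exact ofNat_mem _ _ | apply add_mem
          | apply sub_mem | apply mul_mem | apply neg_mem | apply pow_mem)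
  · have ht := tt_mul F q
    refine exc_inv F q D
      (E1 := -(algebraMap ℂ K Γ * ((x - algebraMap ℂ K r.1) * (x - algebraMap ℂ K s.1))))
      (E2 := -(algebraMap ℂ K Γ ^ 2 * ((x - algebraMap ℂ K r.1) * (x - algebraMap ℂ K s.1)) +
        (tt x y q - (algebraMap ℂ K Γ * (x + algebraMap ℂ K q.1) + algebraMap ℂ K c1)) ^ 2 +
        algebraMap ℂ K Γ * ((x - algebraMap ℂ K r.1) + (x - algebraMap ℂ K s.1)) *
        (tt x y q - (algebraMap ℂ K Γ * (x + algebraMap ℂ K q.1) + algebraMap ℂ K c1))))
      (by rw [hx]; ring) ?_ (by (repeat' first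
          | exact fst_mem _ _ | exact snd_mem _ _ | exact c_mem _ _ | exact zero_mem _
          | exact one_mem _ | exact natCast_mem _ _ | exact ofNat_mem _ _ | apply add_mem
          | apply sub_mem | apply mul_mem | apply neg_mem | apply pow_mem)) (by (repeat' first
          | exact fst_mem _ _ | exact snd_mem _ _ | exact c_mem _ _ | exact zero_mem _
          | exact one_mem _ | exact natCast_mem _ _ | exact ofNat_mem _ _ | apply add_mem
          | apply sub_mem | apply mul_mem | apply neg_mem | apply pow_mem))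
    have e1 : y = tt x y q * (x - algebraMap ℂ K q.1) + (algebraMap ℂ K Γ *
        algebraMap ℂ K q.1 ^ 2 + algebraMap ℂ K c1 * algebraMap ℂ K q.1 +
        algebraMap ℂ K c0) := by rw [ht, hvq]; ring
    rw [hx, hy]
    generalize tt x y q = t at e1
    rw [e1]
    ring
  · have ht := tt_mul F r
    refine exc_inv F r D
      (E1 := -(algebraMap ℂ K Γ * ((x - algebraMap ℂ K q.1) * (x - algebraMap ℂ K s.1))))
      (E2 := -(algebraMap ℂ K Γ ^ 2 * ((x - algebraMap ℂ K q.1) * (x - algebraMap ℂ K s.1)) +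
        (tt x y r - (algebraMap ℂ K Γ * (x + algebraMap ℂ K r.1) + algebraMap ℂ K c1)) ^ 2 +
        algebraMap ℂ K Γ * ((x - algebraMap ℂ K q.1) + (x - algebraMap ℂ K s.1)) *
        (tt x y r - (algebraMap ℂ K Γ * (x + algebraMap ℂ K r.1) + algebraMap ℂ K c1))))
      (by rw [hx]; ring) ?_ (by (repeat' first
          | exact fst_mem _ _ | exact snd_mem _ _ | exact c_mem _ _ | exact zero_mem _
          | exact one_mem _ | exact natCast_mem _ _ | exact ofNat_mem _ _ | apply add_mem
          | apply sub_mem | apply mul_mem | apply neg_mem | apply pow_mem)) (by (repeat' first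
          | exact fst_mem _ _ | exact snd_mem _ _ | exact c_mem _ _ | exact zero_mem _
          | exact one_mem _ | exact natCast_mem _ _ | exact ofNat_mem _ _ | apply add_mem
          | apply sub_mem | apply mul_mem | apply neg_mem | apply pow_mem))
    have e1 : y = tt x y r * (x - algebraMap ℂ K r.1) + (algebraMap ℂ K Γ *
        algebraMap ℂ K r.1 ^ 2 + algebraMap ℂ K c1 * algebraMap ℂ K r.1 +
        algebraMap ℂ K c0) := by rw [ht, hvr]; ring
    rw [hx, hy]
    generalize tt x y r = t at e1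
    rw [e1]
    ring
  · have ht := tt_mul F s
    refine exc_inv F s D
      (E1 := -(algebraMap ℂ K Γ * ((x - algebraMap ℂ K q.1) * (x - algebraMap ℂ K r.1))))
      (E2 := -(algebraMap ℂ K Γ ^ 2 * ((x - algebraMap ℂ K q.1) * (x - algebraMap ℂ K r.1)) +
        (tt x y s - (algebraMap ℂ K Γ * (x + algebraMap ℂ K s.1) + algebraMap ℂ K c1)) ^ 2 +
        algebraMap ℂ K Γ * ((x - algebraMap ℂ K q.1) + (x - algebraMap ℂ K r.1)) *
        (tt x y s - (algebraMap ℂ K Γ * (x + algebraMap ℂ K s.1) + algebraMap ℂ K c1))))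
      (by rw [hx]; ring) ?_ (by (repeat' first
          | exact fst_mem _ _ | exact snd_mem _ _ | exact c_mem _ _ | exact zero_mem _
          | exact one_mem _ | exact natCast_mem _ _ | exact ofNat_mem _ _ | apply add_mem
          | apply sub_mem | apply mul_mem | apply neg_mem | apply pow_mem)) (by (repeat' first
          | exact fst_mem _ _ | exact snd_mem _ _ | exact c_mem _ _ | exact zero_mem _
          | exact one_mem _ | exact natCast_mem _ _ | exact ofNat_mem _ _ | apply add_mem
          | apply sub_mem | apply mul_mem | apply neg_mem | apply pow_mem))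
    have e1 : y = tt x y s * (x - algebraMap ℂ K s.1) + (algebraMap ℂ K Γ *
        algebraMap ℂ K s.1 ^ 2 + algebraMap ℂ K c1 * algebraMap ℂ K s.1 +
        algebraMap ℂ K c0) := by rw [ht, hvs]; ring
    rw [hx, hy]
    generalize tt x y s = t at e1
    rw [e1]
    ring

theorem two_ne : (2 : K) ≠ 0 := by
  have h1 : (2 : K) = algebraMap ℂ K 2 := by rw [map_ofNat]
  rw [h1]
  intro h
  rw [← map_zero (algebraMap ℂ K)] at h
  exact two_ne_zero (c_inj F h)

/-- `n = 1`, points not on a line -/
theorem gen_n1 (hx : ∀ i j, i ≠ j → (p i).1 ≠ (p j).1) {Γ c1 c0 Δ d1 d0 : ℂ}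
    (h1 : (p 1).2 = Γ * (p 1).1 ^ 2 + c1 * (p 1).1 + c0)
    (h2 : (p 2).2 = Γ * (p 2).1 ^ 2 + c1 * (p 2).1 + c0)
    (h3 : (p 3).2 = Γ * (p 3).1 ^ 2 + c1 * (p 3).1 + c0)
    (k0 : (p 0).2 = Δ * (p 0).1 ^ 2 + d1 * (p 0).1 + d0)
    (k2 : (p 2).2 = Δ * (p 2).1 ^ 2 + d1 * (p 2).1 + d0)
    (k3 : (p 3).2 = Δ * (p 3).1 ^ 2 + d1 * (p 3).1 + d0) (hne : ¬ (Γ = 0 ∧ Δ = 0))
    (m : ℕ) : Tens K m ≤ Submodule.span K {S | IsSec 1 x y p 0 8 0 m S} := by
  obtain ⟨a, ax, ay, a1, a2, a3, a4⟩ := rad_vf F (p 0)
  obtain ⟨b, bx, by', b1, b2, b3, b4, b5, b6⟩ := con_vf F h1 h2 h3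
  obtain ⟨c, cx, cy, c1', c2, c3, c4⟩ := rad_vf F (p 1)
  obtain ⟨d, dx, dy, d1', d2, d3, d4, d5, d6⟩ := con_vf F k0 k2 k3
  have h2' := two_ne F
  have eb1 : Ey (b x) = 0 := by
    rw [bx]
    simp only [map_neg, map_sub, Derivation.leibniz, Derivation.map_algebraMap, F.yx, smul_eq_mul,
      mul_zero, sub_zero, add_zero, neg_zero]
  have ed1 : Ey (d x) = 0 := by
    rw [dx]
    simp only [map_neg, map_sub, Derivation.leibniz, Derivation.map_algebraMap, F.yx, smul_eq_mul,
      mul_zero, sub_zero, add_zero, neg_zero]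
  have e2 : Ey (2 : K) = 0 := by
    have h1 : (2 : K) = algebraMap ℂ K 2 := by rw [map_ofNat]
    rw [h1, Derivation.map_algebraMap]
  have eb2 : Ey (Ey (b y)) = -2 := by
    rw [by']
    simp only [map_neg, map_sub, map_add, Derivation.leibniz, Derivation.leibniz_pow,
      Derivation.map_algebraMap, F.yx, F.yy, smul_eq_mul, nsmul_eq_mul, mul_zero, sub_zero,
      add_zero, zero_add, neg_zero, e2, mul_one, Nat.cast_ofNat, Nat.add_one_sub_one, pow_one,
      Derivation.map_one_eq_zero]
  have ed2 : Ey (Ey (d y)) = -2 := by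
    rw [dy]
    simp only [map_neg, map_sub, map_add, Derivation.leibniz, Derivation.leibniz_pow,
      Derivation.map_algebraMap, F.yx, F.yy, smul_eq_mul, nsmul_eq_mul, mul_zero, sub_zero,
      add_zero, zero_add, neg_zero, e2, mul_one, Nat.cast_ofNat, Nat.add_one_sub_one, pow_one,
      Derivation.map_one_eq_zero]
  refine pair_gen F (a := a) (b := b) (c := c) (d := d) ?_ ?_ ?_ ?_ ?_ ?_ m
  · intro h
    rw [ax, ay, cx, cy] at h
    have e := congrArg Ey h
    simp only [map_sub, Derivation.leibniz, Derivation.map_algebraMap, F.yx, F.yy, smul_eq_mul,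
      mul_zero, sub_zero, add_zero, zero_add, mul_one, map_zero] at e
    refine hx 0 1 (by decide) (c_inj F ?_)
    linear_combination -e
  · intro h
    have e := congrArg Ey (congrArg Ey h)
    rw [ax, ay] at e
    simp only [map_sub, map_add, Derivation.leibniz, Derivation.map_algebraMap, F.yx, F.yy,
      smul_eq_mul, mul_zero, sub_zero, add_zero, zero_add, mul_one, map_zero, ed1, ed2] at e
    have h4 := x_ne F (p 0).1
    rcases mul_eq_zero.1 e with h5 | h5
    · exact h4 h5
    · exact h2' (neg_eq_zero.1 h5)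
  · intro h
    have e := congrArg Ey (congrArg Ey h)
    rw [cx, cy] at e
    simp only [map_sub, map_add, Derivation.leibniz, Derivation.map_algebraMap, F.yx, F.yy,
      smul_eq_mul, mul_zero, sub_zero, add_zero, zero_add, mul_one, map_zero, eb1, eb2,
      zero_sub, mul_neg, neg_neg] at e
    have h4 := x_ne F (p 1).1
    rcases mul_eq_zero.1 e with h5 | h5
    · exact h4 h5
    · exact h2' h5
  · intro h
    have e := congrArg Ey (congrArg Ey h)
    simp only [map_sub, map_add, Derivation.leibniz, Derivation.map_algebraMap, F.yx, F.yy,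
      smul_eq_mul, mul_zero, sub_zero, add_zero, zero_add, mul_one, map_zero, eb1, eb2, ed1,
      ed2] at e
    have e3 : b x = d x := by
      apply mul_right_cancel₀ h2'
      linear_combination -e
    rw [bx, dx] at e3
    have e4 : algebraMap ℂ K Γ * (x - algebraMap ℂ K (p 1).1) =
        algebraMap ℂ K Δ * (x - algebraMap ℂ K (p 0).1) := by
      apply mul_right_cancel₀ (mul_ne_zero (x_ne F (p 2).1) (x_ne F (p 3).1))
      linear_combination -e3
    have e5 := congrArg Ex e4
    simp only [map_sub, Derivation.leibniz, Derivation.map_algebraMap, F.xx, smul_eq_mul,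
      mul_zero, sub_zero, add_zero, mul_one] at e5
    have e6 := c_inj F e5
    subst e6
    have e7 : algebraMap ℂ K (Γ * ((p 1).1 - (p 0).1)) = 0 := by
      rw [map_mul, map_sub]
      linear_combination -e4
    rw [← map_zero (algebraMap ℂ K)] at e7
    rcases mul_eq_zero.1 (c_inj F e7) with h5 | h5
    · exact hne ⟨h5, h5⟩
    · exact hx 1 0 (by decide) (sub_eq_zero.1 h5)
  · refine good_prod F (x0 F) a1 b1 a2 b2 a3 b3 fun i => ?_
    fin_cases i
    · exact Or.inl a4
    · exact Or.inr b4
    · exact Or.inr b5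
    · exact Or.inr b6
  · refine good_prod F (x0 F) c1' d1' c2 d2 c3 d3 fun i => ?_
    fin_cases i
    · exact Or.inr d4
    · exact Or.inl c4
    · exact Or.inr d5
    · exact Or.inr d6

end frame

end Pool.Agent.Helper11K9.TH
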