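import Pool.Agent.Helper11K9.TH.Sec

/-!
Generation from two quadratic sections without common factors.
-/

set_option autoImplicit false
set_option linter.unusedSectionVars false

open Polynomial

namespace Pool.Agent.Helper11K9.TH

variable {K : Type} [Field K] [Algebra ℂ K]

structure Good (n : ℕ) (x y : K) (p : Fin 4 → ℂ × ℂ) (S : K → K) : Prop where
  plane : Reg x y 1 S
  fibre : Reg x⁻¹ (y / x ^ n) 1 S
  curve : Reg x y⁻¹ 1 S
  exc : ∀ i, Reg x (tt x y (p i)) 1 S

section frame

variable {n : ℕ} {x y : K} {Ex Ey : Derivation ℂ K K} (F : Fr x y Ex Ey)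
  {p : Fin 4 → ℂ × ℂ}

theorem good_mul {β m : ℕ} {q S : K → K} (hq : Good n x y p q) (hq2 : q ∈ Tens K 2)
    (hS : IsSec n x y p 0 β 0 m S) : IsSec n x y p 0 β 0 (m + 2) (q * S) := by
  refine ⟨?_, ?_, ?_, ?_, fun i => ?_⟩
  · rw [tens_eq, pow_add, mul_comm (T1 K ^ m)]
    rw [tens_eq] at hq2
    have h := hS.tens
    rw [tens_eq] at h
    exact Submodule.mul_mem_mul hq2 h
  · have h := reg_mul hq.plane hS.plane
    rwa [one_mul] at h
  · have h := reg_mul hq.fibre hS.fibre
    rwa [one_mul] at h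
  · have h := reg_mul hq.curve hS.curve
    rwa [one_mul] at h
  · have h := reg_mul (hq.exc i) (hS.exc i)
    rwa [one_mul] at h

include F

/-- the vector fields `g ∂x`, `g ∂y` -/
theorem sec_one (D : Derivation ℂ K K) (hD : D = Ex ∨ D = Ey) :
    IsSec n x y p 0 4 0 1 ((gg x p • D : Derivation ℂ K K) : K → K) := by
  have h0 := x0 F
  have h0y := y0 F
  have e1 : (gg x p • Ex : Derivation ℂ K K) x = gg x p := by
    rw [Derivation.smul_apply, F.xx, smul_eq_mul, mul_one]
  have e2 : (gg x p • Ex : Derivation ℂ K K) y = 0 := by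
    rw [Derivation.smul_apply, F.xy, smul_zero]
  have e3 : (gg x p • Ey : Derivation ℂ K K) x = 0 := by
    rw [Derivation.smul_apply, F.yx, smul_zero]
  have e4 : (gg x p • Ey : Derivation ℂ K K) y = gg x p := by
    rw [Derivation.smul_apply, F.yy, smul_eq_mul, mul_one]
  have hD' : ((gg x p • D : Derivation ℂ K K) x = gg x p ∧ (gg x p • D : Derivation ℂ K K) y = 0) ∨
      ((gg x p • D : Derivation ℂ K K) x = 0 ∧ (gg x p • D : Derivation ℂ K K) y = gg x p) := by
    rcases hD with rfl | rfl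
    · exact Or.inl ⟨e1, e2⟩
    · exact Or.inr ⟨e3, e4⟩
  set E := (gg x p • D : Derivation ℂ K K) with hE
  refine ⟨?_, ?_, ?_, ?_, fun i => ?_⟩
  · rw [tens_eq, pow_one]
    exact der_mem _
  · refine reg_der _ ?_ ?_ <;> rw [one_mul] <;> rcases hD' with ⟨h1, h2⟩ | ⟨h1, h2⟩ <;>
      (first | rw [h1] | rw [h2]) <;> first | exact zero_mem _ | exact gg_mem (fst_mem _ _) p
  · have hinv : E x⁻¹ = -(x⁻¹ ^ 2 * E x) := by
      rw [Derivation.leibniz_inv, smul_eq_mul, neg_mul, inv_pow]
    refine reg_der _ ?_ ?_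
    · rw [hinv]
      rcases hD' with ⟨h1, h2⟩ | ⟨h1, h2⟩
      · rw [h1]
        have h : x⁻¹ ^ 4 * -(x⁻¹ ^ 2 * gg x p) = -(gg x p * x⁻¹ ^ 4 * x⁻¹ ^ 2) := by ring
        rw [h]
        exact neg_mem (mul_mem (gg_inf F) (pow_mem (fst_mem _ _) _))
      · rw [h1, mul_zero, neg_zero, mul_zero]
        exact zero_mem _
    · have h3 : y / x ^ n = y * x⁻¹ ^ n := by rw [div_eq_mul_inv, inv_pow]
      have h4 : E (y / x ^ n) = x⁻¹ ^ n * E y - (n : K) * (y / x ^ n) * x⁻¹ * E x := by
        rcases n with _ | n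
        · simp
        · rw [h3, Derivation.leibniz, Derivation.leibniz_pow, hinv, smul_eq_mul, smul_eq_mul,
            nsmul_eq_mul, smul_eq_mul, Nat.add_sub_cancel]
          have h5 : x⁻¹ ^ (n + 1) = x⁻¹ ^ n * x⁻¹ := pow_succ _ _
          rw [h5]
          ring
      rw [h4]
      rcases hD' with ⟨h1, h2⟩ | ⟨h1, h2⟩
      · rw [h1, h2]
        have h : x⁻¹ ^ 4 * (x⁻¹ ^ n * 0 - (n : K) * (y / x ^ n) * x⁻¹ * gg x p) =
            -((n : K) * (y / x ^ n) * x⁻¹ * (gg x p * x⁻¹ ^ 4)) := by ring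
        rw [h]
        exact neg_mem (mul_mem (mul_mem (mul_mem (natCast_mem _ _) (snd_mem _ _)) (fst_mem _ _))
          (gg_inf F))
      · rw [h1, h2]
        have h : x⁻¹ ^ 4 * (x⁻¹ ^ n * gg x p - (n : K) * (y / x ^ n) * x⁻¹ * 0) =
            gg x p * x⁻¹ ^ 4 * x⁻¹ ^ n := by ring
        rw [h]
        exact mul_mem (gg_inf F) (pow_mem (fst_mem _ _) _)
  · rw [pow_zero]
    have hinv : E y⁻¹ = -(y⁻¹ ^ 2 * E y) := by
      rw [Derivation.leibniz_inv, smul_eq_mul, neg_mul, inv_pow]
    refine reg_der _ ?_ ?_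
    · rw [one_mul]
      rcases hD' with ⟨h1, h2⟩ | ⟨h1, h2⟩
      · rw [h1]
        exact gg_mem (fst_mem _ _) p
      · rw [h1]
        exact zero_mem _
    · rw [one_mul, hinv]
      rcases hD' with ⟨h1, h2⟩ | ⟨h1, h2⟩
      · rw [h2, mul_zero, neg_zero]
        exact zero_mem _
      · rw [h2]
        exact neg_mem (mul_mem (pow_mem (snd_mem _ _) _) (gg_mem (fst_mem _ _) p))
  · rw [pow_zero]
    have hs := x_ne F (p i).1
    have h5 : D x ∈ chart x y ∧ D y ∈ chart x y := by
      rcases hD with rfl | rfl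
      · rw [F.xx, F.xy]
        exact ⟨one_mem _, zero_mem _⟩
      · rw [F.yx, F.yy]
        exact ⟨zero_mem _, one_mem _⟩
    have h6 := blow_reg F (p i) D h5.1 h5.2
    intro f hf
    have h7 : (1 : K) * E f = gg x p * (x - algebraMap ℂ K (p i).1)⁻¹ *
        ((x - algebraMap ℂ K (p i).1) * D f) := by
      rw [hE, Derivation.smul_apply, smul_eq_mul, one_mul, mul_assoc, inv_mul_cancel_left₀ hs]
    rw [h7]
    exact mul_mem (gg_div F i (fst_mem _ _)) (h6 f hf)

theorem sec_scale {β r m : ℕ} {S : K → K} (hS : IsSec n x y p 0 β 0 m S) :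
    IsSec n x y p 0 (β + r) 0 m S := by
  refine ⟨hS.tens, hS.plane, ?_, hS.curve, hS.exc⟩
  rw [pow_add]
  exact reg_scale hS.fibre (pow_mem (fst_mem _ _) _)

theorem T1_eq : T1 K = Submodule.span K {((gg x p • Ex : Derivation ℂ K K) : K → K)} ⊔
    Submodule.span K {((gg x p • Ey : Derivation ℂ K K) : K → K)} := by
  refine two F ?_
  rw [Derivation.smul_apply, Derivation.smul_apply, Derivation.smul_apply, Derivation.smul_apply,
    F.xx, F.xy, F.yx, F.yy, smul_zero, smul_eq_mul, mul_one, zero_mul, sub_zero]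
  exact mul_ne_zero (gg_ne F) (gg_ne F)

theorem gen_one : T1 K ≤ Submodule.span K {S | IsSec n x y p 0 4 0 1 S} := by
  rw [T1_eq F (p := p)]
  refine sup_le ?_ ?_ <;> rw [Submodule.span_singleton_le_iff_mem]
  · exact Submodule.subset_span (sec_one F Ex (Or.inl rfl))
  · exact Submodule.subset_span (sec_one F Ey (Or.inr rfl))

theorem sec_mul {β β' m m' : ℕ} {S S' : K → K} (hS : IsSec n x y p 0 β 0 m S)
    (hS' : IsSec n x y p 0 β' 0 m' S') : IsSec n x y p 0 (β + β') 0 (m + m') (S * S') := by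
  refine ⟨?_, ?_, ?_, ?_, fun i => ?_⟩
  · have h := hS.tens
    have h' := hS'.tens
    rw [tens_eq] at h h' ⊢
    rw [pow_add]
    exact Submodule.mul_mem_mul h h'
  · have h := reg_mul hS.plane hS'.plane
    rwa [one_mul] at h
  · have h := reg_mul hS.fibre hS'.fibre
    rwa [← pow_add] at h
  · have h := reg_mul hS.curve hS'.curve
    rwa [← pow_add] at h
  · have h := reg_mul (hS.exc i) (hS'.exc i)
    rwa [← pow_add] at h

theorem gen_two : T1 K ^ 2 ≤ Submodule.span K {S | IsSec n x y p 0 8 0 2 S} := by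
  rw [pow_two]
  refine le_trans (mul_le_mul' (gen_one F (n := n) (p := p)) (gen_one F (n := n) (p := p))) ?_
  rw [Submodule.span_mul_span]
  refine Submodule.span_mono ?_
  rintro _ ⟨S, hS, S', hS', rfl⟩
  exact sec_mul F hS hS'

theorem gen_zero : T1 K ^ 0 ≤ Submodule.span K {S | IsSec n x y p 0 8 0 0 S} := by
  rw [pow_zero, Submodule.one_eq_span, Submodule.span_singleton_le_iff_mem]
  refine Submodule.subset_span ⟨?_, reg_one, ?_, ?_, fun i => ?_⟩
  · rw [tens_eq, pow_zero]
    exact Submodule.one_le.1 le_rfl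
  · have h := reg_scale (u := x⁻¹) (v := y / x ^ n) (d := x⁻¹ ^ 8) reg_one
      (pow_mem (fst_mem _ _) _)
    rwa [one_mul] at h
  · rw [pow_zero]
    exact reg_one
  · rw [pow_zero]
    exact reg_one

/-- **two quadratic sections** without common factors are enough -/
theorem pair_gen {a b c d : Derivation ℂ K K} (hac : a x * c y - a y * c x ≠ 0)
    (had : a x * d y - a y * d x ≠ 0) (hbc : b x * c y - b y * c x ≠ 0)
    (hbd : b x * d y - b y * d x ≠ 0) (h1 : Good n x y p ((a : K → K) * (b : K → K)))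
    (h2 : Good n x y p ((c : K → K) * (d : K → K))) (m : ℕ) :
    Tens K m ≤ Submodule.span K {S | IsSec n x y p 0 8 0 m S} := by
  have hm : ∀ a b : Derivation ℂ K K, (a : K → K) * (b : K → K) ∈ Tens K 2 := fun a b => by
    rw [tens_eq, pow_two]
    exact Submodule.mul_mem_mul (der_mem _) (der_mem _)
  induction m using Nat.strong_induction_on with
  | _ m ih =>
    match m, ih with
    | 0, _ => rw [tens_eq]; exact gen_zero F
    | 1, _ =>
      rw [tens_eq, pow_one]
      refine le_trans (gen_one F (n := n) (p := p)) (Submodule.span_mono fun S hS => ?_)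
      exact sec_scale F (r := 4) hS
    | 2, _ => rw [tens_eq]; exact gen_two F
    | (k + 3), ih =>
      have ih' := ih (k + 1) (by omega)
      rw [tens_eq] at ih' ⊢
      refine le_trans (coprime F hac had hbc hbd k) ?_
      have h3 : ∀ a b : Derivation ℂ K K, Good n x y p ((a : K → K) * (b : K → K)) →
          Submodule.span K {(a : K → K) * (b : K → K)} * T1 K ^ (k + 1) ≤
            Submodule.span K {S | IsSec n x y p 0 8 0 (k + 3) S} := by
        intro a b hab
        refine le_trans (mul_le_mul' le_rfl ih') ?_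
        rw [Submodule.span_mul_span]
        refine Submodule.span_mono ?_
        rintro _ ⟨q, hq, S, hS, rfl⟩
        rw [Set.mem_singleton_iff] at hq
        subst hq
        exact good_mul hab (hm a b) hS
      exact sup_le (h3 a b h1) (h3 c d h2)

end frame

end Pool.Agent.Helper11K9.TH
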