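import Pool.Agent.Helper11K9.TH.Base

/-!
Sections of the symmetric powers of the tangent bundle of a blown up Hirzebruch surface.
-/

set_option autoImplicit false
set_option linter.unusedSectionVars false

open Polynomial

namespace Pool.Agent.Helper11K9.TH

variable {K : Type} [Field K] [Algebra ℂ K]

/-- the coordinate `(y - b) / (x - a)` on the blow-up of `(a, b)` -/
def tt (x y : K) (p : ℂ × ℂ) : K := (y - algebraMap ℂ K p.2) / (x - algebraMap ℂ K p.1)

structure IsSec (n : ℕ) (x y : K) (p : Fin 4 → ℂ × ℂ) (α β γ m : ℕ) (S : K → K) : Prop where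
  tens : S ∈ Tens K m
  plane : Reg x y 1 S
  fibre : Reg x⁻¹ (y / x ^ n) (x⁻¹ ^ β) S
  curve : Reg x y⁻¹ (y⁻¹ ^ α) S
  exc : ∀ i, Reg x (tt x y (p i)) ((x - algebraMap ℂ K (p i).1)⁻¹ ^ γ) S

/-- the product of the `x - a_i` -/
def gg (x : K) (p : Fin 4 → ℂ × ℂ) : K := ∏ i, (x - algebraMap ℂ K (p i).1)

theorem c_mem (R : Subalgebra ℂ K) (c : ℂ) : algebraMap ℂ K c ∈ R := R.algebraMap_mem c

theorem gg_mem {R : Subalgebra ℂ K} {x : K} (hx : x ∈ R) (p : Fin 4 → ℂ × ℂ) : gg x p ∈ R :=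
  R.prod_mem fun i _ => R.sub_mem hx (c_mem R _)

section frame

variable {n : ℕ} {x y : K} {Ex Ey : Derivation ℂ K K} (F : Fr x y Ex Ey)
  {p : Fin 4 → ℂ × ℂ}

include F

theorem x_ne (a : ℂ) : x - algebraMap ℂ K a ≠ 0 := fun h => by
  have h1 := F.xx
  rw [sub_eq_zero.1 h, Derivation.map_algebraMap] at h1
  exact zero_ne_one h1

theorem y_ne (a : ℂ) : y - algebraMap ℂ K a ≠ 0 := fun h => by
  have h1 := F.yy
  rw [sub_eq_zero.1 h, Derivation.map_algebraMap] at h1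
  exact zero_ne_one h1

theorem x0 : x ≠ 0 := by
  have h := x_ne F 0
  rwa [map_zero, sub_zero] at h

theorem y0 : y ≠ 0 := by
  have h := y_ne F 0
  rwa [map_zero, sub_zero] at h

theorem gg_ne : gg x p ≠ 0 := Finset.prod_ne_zero_iff.2 fun i _ => x_ne F _

theorem gg_inf {v : K} : gg x p * x⁻¹ ^ 4 ∈ chart x⁻¹ v := by
  have h0 := x0 F
  have h : gg x p * x⁻¹ ^ 4 = ∏ i, (1 - algebraMap ℂ K (p i).1 * x⁻¹) := by
    have h1 : x⁻¹ ^ 4 = ∏ _i : Fin 4, x⁻¹ := by
      rw [Finset.prod_const, Finset.card_univ, Fintype.card_fin]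
    unfold gg
    rw [h1, ← Finset.prod_mul_distrib]
    refine Finset.prod_congr rfl fun i _ => ?_
    rw [sub_mul, mul_inv_cancel₀ h0]
  rw [h]
  exact Subalgebra.prod_mem _ fun i _ => sub_mem (one_mem _) (mul_mem (c_mem _ _) (fst_mem _ _))

theorem gg_div (i : Fin 4) {R : Subalgebra ℂ K} (hx : x ∈ R) :
    gg x p * (x - algebraMap ℂ K (p i).1)⁻¹ ∈ R := by
  have h : gg x p * (x - algebraMap ℂ K (p i).1)⁻¹ =
      ∏ j ∈ Finset.univ.erase i, (x - algebraMap ℂ K (p j).1) := by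
    unfold gg
    rw [← Finset.mul_prod_erase _ _ (Finset.mem_univ i), mul_comm, inv_mul_cancel_left₀ (x_ne F _)]
  rw [h]
  exact R.prod_mem fun i _ => R.sub_mem hx (c_mem R _)

theorem sec_shift {β₀ α β γ m : ℕ} (h : 4 * γ + β₀ ≤ β) {S : K → K}
    (hS : IsSec n x y p 0 β₀ 0 m S) : IsSec n x y p α β γ m (gg x p ^ γ • S) := by
  refine ⟨Submodule.smul_mem _ _ hS.tens, reg_smul' hS.plane (pow_mem (gg_mem (fst_mem _ _) p) _),
    ?_, ?_, fun i => ?_⟩
  · obtain ⟨r, rfl⟩ := Nat.exists_eq_add_of_le h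
    have h1 : x⁻¹ ^ (4 * γ + β₀ + r) = x⁻¹ ^ β₀ * (x⁻¹ ^ (4 * γ) * x⁻¹ ^ r) := by ring
    rw [h1]
    refine reg_smul hS.fibre ?_
    have h2 : gg x p ^ γ * (x⁻¹ ^ (4 * γ) * x⁻¹ ^ r) = (gg x p * x⁻¹ ^ 4) ^ γ * x⁻¹ ^ r := by
      rw [mul_pow, ← pow_mul, mul_assoc]
    rw [h2]
    exact mul_mem (pow_mem (gg_inf F) _) (pow_mem (fst_mem _ _) _)
  · have h1 := hS.curve
    rw [pow_zero] at h1
    have h2 := reg_smul (c := gg x p ^ γ) (d := y⁻¹ ^ α) h1
      (mul_mem (pow_mem (gg_mem (fst_mem _ _) p) _) (pow_mem (snd_mem _ _) _))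
    rwa [one_mul] at h2
  · have h1 := hS.exc i
    rw [pow_zero] at h1
    have h2 := reg_smul (c := gg x p ^ γ) (d := (x - algebraMap ℂ K (p i).1)⁻¹ ^ γ) h1 (by
      rw [← mul_pow]
      exact pow_mem (gg_div F i (fst_mem _ _)) _)
    rwa [one_mul] at h2

theorem gen_shift {β₀ α β γ m : ℕ} (h : 4 * γ + β₀ ≤ β)
    (hg : Tens K m ≤ Submodule.span K {S | IsSec n x y p 0 β₀ 0 m S}) :
    Tens K m ≤ Submodule.span K {S | IsSec n x y p α β γ m S} := by
  refine le_trans hg (Submodule.span_le.2 fun S hS => ?_)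
  have h1 : S = (gg x p ^ γ)⁻¹ • (gg x p ^ γ • S) := by
    rw [smul_smul, inv_mul_cancel₀ (pow_ne_zero _ (gg_ne F)), one_smul]
  rw [h1]
  exact Submodule.smul_mem _ _ (Submodule.subset_span (sec_shift F h hS))

/-- derivations of the plane extend with a factor `x - a` -/
theorem blow_reg (q : ℂ × ℂ) (D : Derivation ℂ K K) (h1 : D x ∈ chart x y) (h2 : D y ∈ chart x y) :
    Reg x (tt x y q) (x - algebraMap ℂ K q.1) D := by
  have hs := x_ne F q.1
  have hle : chart x y ≤ chart x (tt x y q) := by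
    refine chart_le (fst_mem _ _) ?_
    have h : y = algebraMap ℂ K q.2 + (x - algebraMap ℂ K q.1) * tt x y q := by
      unfold tt
      rw [mul_div_cancel₀ _ hs]
      ring
    have h3 : algebraMap ℂ K q.2 + (x - algebraMap ℂ K q.1) * tt x y q ∈ chart x (tt x y q) :=
      add_mem (c_mem _ _) (mul_mem (sub_mem (fst_mem _ _) (c_mem _ _)) (snd_mem _ _))
    rw [← h] at h3
    exact h3
  refine reg_der D (mul_mem (sub_mem (fst_mem _ _) (c_mem _ _)) (hle h1)) ?_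
  have h4 : (x - algebraMap ℂ K q.1) * D (tt x y q) = D y - tt x y q * D x := by
    unfold tt
    rw [Derivation.leibniz_div, map_sub, map_sub, Derivation.map_algebraMap,
      Derivation.map_algebraMap, smul_eq_mul, smul_eq_mul, smul_eq_mul]
    field_simp
    ring
  rw [h4]
  exact sub_mem (hle h2) (mul_mem (snd_mem _ _) (hle h1))

end frame

end Pool.Agent.Helper11K9.TH
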