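import Pool.Agent.Helper11K9.TH.Lau

/-!
Surfaces with an action of the multiplicative group: the four points are on a section which is
disjoint from the negative section.
-/

set_option autoImplicit false
set_option linter.unusedSectionVars false
set_option linter.unusedSimpArgs false

open Polynomial

namespace Pool.Agent.Helper11K9.TH

variable {K : Type} [Field K] [Algebra ℂ K]

/-- regular outside of the fibre at infinity -/
structure FR (x y : K) (p : Fin 4 → ℂ × ℂ) (S : K → K) : Prop where
  plane : Reg x y 1 S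
  curve : Reg x y⁻¹ 1 S
  exc : ∀ i, Reg x (tt x y (p i)) 1 S

section fr

variable {x y : K} {p : Fin 4 → ℂ × ℂ}

theorem FR.mul {S T : K → K} (hS : FR x y p S) (hT : FR x y p T) : FR x y p (S * T) :=
  ⟨by simpa using reg_mul hS.plane hT.plane, by simpa using reg_mul hS.curve hT.curve,
    fun i => by simpa using reg_mul (hS.exc i) (hT.exc i)⟩

theorem FR.add {S T : K → K} (hS : FR x y p S) (hT : FR x y p T) : FR x y p (S + T) :=
  ⟨reg_add hS.plane hT.plane, reg_add hS.curve hT.curve, fun i => reg_add (hS.exc i) (hT.exc i)⟩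

theorem FR.sub {S T : K → K} (hS : FR x y p S) (hT : FR x y p T) : FR x y p (S - T) :=
  ⟨reg_sub hS.plane hT.plane, reg_sub hS.curve hT.curve, fun i => reg_sub (hS.exc i) (hT.exc i)⟩

theorem FR.one : FR x y p 1 := ⟨reg_one, reg_one, fun _ => reg_one⟩

theorem FR.smul {S : K → K} (hS : FR x y p S) (Q : ℂ[X]) : FR x y p (aeval x Q • S) :=
  ⟨reg_smul' hS.plane (poly_mem (fst_mem _ _) Q), reg_smul' hS.curve (poly_mem (fst_mem _ _) Q),
    fun i => reg_smul' (hS.exc i) (poly_mem (fst_mem _ _) Q)⟩

end fr

/-- the data: the derivations `X`, `Y` -/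
structure St (n : ℕ) (x y : K) (p : Fin 4 → ℂ × ℂ) (c : ℂ[X]) (X Y : Derivation ℂ K K) :
    Prop where
  hX : X x = 0
  hX' : X y = y - aeval x c
  hY : Y x = 1
  hY' : Y y = aeval x (derivative c)
  deg : c.natDegree ≤ n
  val : ∀ i, c.eval (p i).1 = (p i).2

theorem der_poly {x : K} (D : Derivation ℂ K K) (P : ℂ[X]) :
    D (aeval x P) = aeval x (derivative P) * D x := by
  induction P using Polynomial.induction_on' with
  | add p q hp hq => rw [map_add, map_add, hp, hq, derivative_add, map_add, add_mul]
  | monomial k a =>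
    rw [aeval_monomial, Derivation.leibniz, Derivation.map_algebraMap, smul_zero, add_zero,
      Derivation.leibniz_pow, derivative_monomial, aeval_monomial, map_mul, map_natCast,
      smul_eq_mul, smul_eq_mul, nsmul_eq_mul]
    ring

section frame

variable {n : ℕ} {x y : K} {Ex Ey : Derivation ℂ K K} (F : Fr x y Ex Ey)
  {p : Fin 4 → ℂ × ℂ} {c : ℂ[X]} {A B : Derivation ℂ K K} (H : St n x y p c A B)

include F H

/-- `A` is regular everywhere -/
theorem A_good : Good n x y p A := by
  have h0 := x0 F
  have h0y := y0 F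
  refine ⟨?_, ?_, ?_, fun i => ?_⟩
  · refine reg_der A ?_ ?_
    · rw [one_mul, H.hX]; (repeat' first
          | exact fst_mem _ _ | exact snd_mem _ _ | exact c_mem _ _ | exact zero_mem _
          | exact one_mem _ | exact natCast_mem _ _ | exact ofNat_mem _ _ | apply add_mem
          | apply sub_mem | apply mul_mem | apply neg_mem | apply pow_mem)
    · rw [one_mul, H.hX']
      exact sub_mem (snd_mem _ _) (poly_mem (fst_mem _ _) c)
  · refine reg_der A ?_ ?_
    · rw [one_mul, der_inv F, H.hX, mul_zero, neg_zero]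
      exact zero_mem _
    · have h1 : 1 * A (y / x ^ n) = y / x ^ n - aeval x c * x⁻¹ ^ n := by
        have h2 : y / x ^ n = y * x⁻¹ ^ n := by rw [div_eq_mul_inv, inv_pow]
        rw [h2, Derivation.leibniz, Derivation.leibniz_pow, der_inv F, H.hX, H.hX', mul_zero,
          neg_zero, smul_zero, smul_zero, smul_zero, zero_add, smul_eq_mul]
        ring
      rw [h1]
      exact sub_mem (snd_mem _ _) (inv_mem h0 H.deg)
  · refine reg_der A ?_ ?_
    · rw [one_mul, H.hX]; (repeat' first
          | exact fst_mem _ _ | exact snd_mem _ _ | exact c_mem _ _ | exact zero_mem _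
          | exact one_mem _ | exact natCast_mem _ _ | exact ofNat_mem _ _ | apply add_mem
          | apply sub_mem | apply mul_mem | apply neg_mem | apply pow_mem)
    · have h1 : 1 * A y⁻¹ = -y⁻¹ + aeval x c * y⁻¹ ^ 2 := by
        rw [der_inv F, H.hX']
        field_simp
        ring
      rw [h1]
      exact add_mem (neg_mem (snd_mem _ _)) (mul_mem (poly_mem (fst_mem _ _) c)
        (pow_mem (snd_mem _ _) _))
  · obtain ⟨e, he⟩ : X - C (p i).1 ∣ c - C (p i).2 := by
      rw [dvd_iff_isRoot, IsRoot.def, eval_sub, eval_C, H.val, sub_self]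
    have hs := x_ne F (p i).1
    have hc : aeval x c = algebraMap ℂ K (p i).2 + (x - algebraMap ℂ K (p i).1) * aeval x e := by
      have h1 := congrArg (aeval x) he
      rw [map_sub, map_mul, map_sub, aeval_C, aeval_X, aeval_C] at h1
      rw [← h1]
      ring
    have h2 := der_tt F (p i) A
    rw [H.hX, H.hX', mul_zero, sub_zero, hc] at h2
    have h3 : A (tt x y (p i)) = tt x y (p i) - aeval x e := by
      apply mul_left_cancel₀ hs
      rw [h2, mul_sub, mul_comm _ (tt x y (p i)), tt_mul F]
      ring
    refine reg_der A ?_ ?_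
    · rw [one_mul, H.hX]; (repeat' first
          | exact fst_mem _ _ | exact snd_mem _ _ | exact c_mem _ _ | exact zero_mem _
          | exact one_mem _ | exact natCast_mem _ _ | exact ofNat_mem _ _ | apply add_mem
          | apply sub_mem | apply mul_mem | apply neg_mem | apply pow_mem)
    · rw [one_mul, h3]
      exact sub_mem (snd_mem _ _) (poly_mem (fst_mem _ _) e)

theorem A_FR : FR x y p A := ⟨(A_good F H).plane, (A_good F H).curve, (A_good F H).exc⟩

theorem B_plane : Reg x y 1 B := by
  refine reg_der B ?_ ?_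
  · rw [one_mul, H.hY]; (repeat' first
          | exact fst_mem _ _ | exact snd_mem _ _ | exact c_mem _ _ | exact zero_mem _
          | exact one_mem _ | exact natCast_mem _ _ | exact ofNat_mem _ _ | apply add_mem
          | apply sub_mem | apply mul_mem | apply neg_mem | apply pow_mem)
  · rw [one_mul, H.hY']
    exact poly_mem (fst_mem _ _) _

theorem B_curve : Reg x y⁻¹ 1 B := by
  refine reg_der B ?_ ?_
  · rw [one_mul, H.hY]; (repeat' first
          | exact fst_mem _ _ | exact snd_mem _ _ | exact c_mem _ _ | exact zero_mem _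
          | exact one_mem _ | exact natCast_mem _ _ | exact ofNat_mem _ _ | apply add_mem
          | apply sub_mem | apply mul_mem | apply neg_mem | apply pow_mem)
  · rw [one_mul, der_inv F, H.hY']
    exact neg_mem (mul_mem (pow_mem (snd_mem _ _) _) (poly_mem (fst_mem _ _) _))

/-- `B + A / s` is regular on the blow-up -/
theorem Z_reg (i : Fin 4) : ∃ Z : Derivation ℂ K K,
    Reg x (tt x y (p i)) 1 Z ∧ B = Z - (x - algebraMap ℂ K (p i).1)⁻¹ • A := by
  have hs := x_ne F (p i).1
  refine ⟨B + (x - algebraMap ℂ K (p i).1)⁻¹ • A, ?_, by rw [add_sub_cancel_right]⟩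
  obtain ⟨Z, hZ⟩ : ∃ Z, Z = B + (x - algebraMap ℂ K (p i).1)⁻¹ • A := ⟨_, rfl⟩
  rw [← hZ]
  obtain ⟨e, he⟩ : X - C (p i).1 ∣ c - C (p i).2 := by
    rw [dvd_iff_isRoot, IsRoot.def, eval_sub, eval_C, H.val, sub_self]
  have hc : aeval x c = algebraMap ℂ K (p i).2 + (x - algebraMap ℂ K (p i).1) * aeval x e := by
    have h1 := congrArg (aeval x) he
    rw [map_sub, map_mul, map_sub, aeval_C, aeval_X, aeval_C] at h1
    rw [← h1]
    ring
  have hc' : aeval x (derivative c) = aeval x e +
      (x - algebraMap ℂ K (p i).1) * aeval x (derivative e) := by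
    have h1 := congrArg (fun P => aeval x (derivative P)) he
    simp only [derivative_sub, derivative_C, sub_zero, derivative_mul, derivative_X, one_mul,
      map_add, map_mul, map_sub, aeval_X, aeval_C] at h1
    exact h1
  have hx1 : Z x = 1 := by
    rw [hZ, Derivation.add_apply, Derivation.smul_apply, H.hX, H.hY, smul_zero, add_zero]
  have hy1 : Z y = aeval x (derivative c) + (x - algebraMap ℂ K (p i).1)⁻¹ * (y - aeval x c) := by
    rw [hZ, Derivation.add_apply, Derivation.smul_apply, H.hX', H.hY', smul_eq_mul]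
  have h2 := der_tt F (p i) Z
  have h3 : Z (tt x y (p i)) = aeval x (derivative e) := by
    apply mul_left_cancel₀ hs
    rw [h2, hx1, hy1, hc, hc']
    have h4 := tt_mul F (p i) (x := x) (y := y)
    have h5 : y = tt x y (p i) * (x - algebraMap ℂ K (p i).1) + algebraMap ℂ K (p i).2 := by
      rw [h4]; ring
    generalize tt x y (p i) = t at h5
    rw [h5]
    field_simp
    ring
  refine reg_der Z ?_ ?_
  · rw [one_mul, hx1]; (repeat' first
          | exact fst_mem _ _ | exact snd_mem _ _ | exact c_mem _ _ | exact zero_mem _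
          | exact one_mem _ | exact natCast_mem _ _ | exact ofNat_mem _ _ | apply add_mem
          | apply sub_mem | apply mul_mem | apply neg_mem | apply pow_mem)
  · rw [one_mul, h3]
    exact poly_mem (fst_mem _ _) _

/-- `u = g B` -/
theorem u_FR : FR x y p (gg x p • (B : K → K)) := by
  refine ⟨reg_smul' (B_plane F H) (gg_mem (fst_mem _ _) p),
    reg_smul' (B_curve F H) (gg_mem (fst_mem _ _) p), fun i => ?_⟩
  obtain ⟨Z, hZ, hB⟩ := Z_reg F H i
  have h1 : gg x p • (B : K → K) = gg x p • (Z : K → K) -
      (gg x p * (x - algebraMap ℂ K (p i).1)⁻¹) • (A : K → K) := by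
    conv_lhs => rw [hB]
    rw [mul_smul, ← smul_sub]
    rfl
  rw [h1]
  exact reg_sub (reg_smul' hZ (gg_mem (fst_mem _ _) p))
    (reg_smul' ((A_good F H).exc i) (gg_div F i (fst_mem _ _)))

/-- `q = B (g B + g' A)` -/
theorem q_FR : FR x y p ((B : K → K) *
    (gg x p • (B : K → K) + aeval x (derivative (GG p)) • (A : K → K))) := by
  have hp : ∀ {v : K}, aeval x (derivative (GG p)) ∈ chart x v := fun {v} =>
    poly_mem (fst_mem _ _) _
  refine ⟨?_, ?_, fun i => ?_⟩
  · have h := reg_mul (B_plane F H) (reg_add (reg_smul' (B_plane F H) (gg_mem (fst_mem _ _) p))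
      (reg_smul' (A_good F H).plane hp))
    rwa [one_mul] at h
  · have h := reg_mul (B_curve F H) (reg_add (reg_smul' (B_curve F H) (gg_mem (fst_mem _ _) p))
      (reg_smul' (A_good F H).curve hp))
    rwa [one_mul] at h
  · obtain ⟨Z, hZ, hB⟩ := Z_reg F H i
    have hs := x_ne F (p i).1
    obtain ⟨k, hk⟩ : ∃ k : ℂ[X], GG p = (X - C (p i).1) * k := by
      refine ⟨∏ j ∈ Finset.univ.erase i, (X - C (p j).1), ?_⟩
      exact (Finset.mul_prod_erase Finset.univ (fun j => (X - C (p j).1 : ℂ[X]))
        (Finset.mem_univ i)).symm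
    have hg : gg x p = (x - algebraMap ℂ K (p i).1) * aeval x k := by
      rw [← GG_aeval, hk, map_mul, map_sub, aeval_X, aeval_C]
    have hg' : aeval x (derivative (GG p)) = aeval x k +
        (x - algebraMap ℂ K (p i).1) * aeval x (derivative k) := by
      rw [hk]
      simp only [derivative_sub, derivative_C, sub_zero, derivative_mul, derivative_X, one_mul,
        map_add, map_mul, map_sub, aeval_X, aeval_C]
    have h1 : (B : K → K) * (gg x p • (B : K → K) + aeval x (derivative (GG p)) • (A : K → K)) =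
        ((x - algebraMap ℂ K (p i).1) • (Z : K → K) - (A : K → K)) *
          (aeval x k • (Z : K → K) + aeval x (derivative k) • (A : K → K)) := by
      funext f
      have h2 : B f = Z f - (x - algebraMap ℂ K (p i).1)⁻¹ * A f := by
        conv_lhs => rw [hB]
        rfl
      simp only [Pi.mul_apply, Pi.add_apply, Pi.smul_apply, Pi.sub_apply, smul_eq_mul]
      rw [h2, hg, hg']
      field_simp
      ring
    rw [h1]
    have h3 := reg_mul (reg_sub (reg_smul' hZ (sub_mem (fst_mem x (tt x y (p i)))
      (c_mem _ (p i).1))) ((A_good F H).exc i)) (reg_add (reg_smul' hZ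
      (poly_mem (fst_mem x (tt x y (p i))) k)) (reg_smul' ((A_good F H).exc i)
      (poly_mem (fst_mem x (tt x y (p i))) (derivative k))))
    rwa [one_mul] at h3

/-- the vector field at infinity -/
theorem V_reg : ∃ V : Derivation ℂ K K, Reg x⁻¹ (y / x ^ n) 1 V ∧
    (V : K → K) = (-x ^ 2) • (B : K → K) + (-((n : K) * x)) • (A : K → K) := by
  have h0 := x0 F
  refine ⟨(-x ^ 2) • B + (-((n : K) * x)) • A, ?_, rfl⟩
  obtain ⟨V, hV⟩ : ∃ V, V = (-x ^ 2) • B + (-((n : K) * x)) • A := ⟨_, rfl⟩
  rw [← hV]
  have hx1 : V x = -x ^ 2 := by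
    rw [hV, Derivation.add_apply, Derivation.smul_apply, Derivation.smul_apply, H.hX, H.hY,
      smul_zero, add_zero, smul_eq_mul, mul_one]
  have hy1 : V y = (-x ^ 2) * aeval x (derivative c) - n * x * (y - aeval x c) := by
    rw [hV, Derivation.add_apply, Derivation.smul_apply, Derivation.smul_apply, H.hX', H.hY',
      smul_eq_mul, smul_eq_mul]
    ring
  refine reg_der V ?_ ?_
  · have h1 : 1 * V x⁻¹ = 1 := by
      rw [der_inv F, hx1]
      field_simp
    rw [h1]
    exact one_mem _
  · have h1 : 1 * V (y / x ^ n) = aeval x (C (n : ℂ) * (X * c) - X ^ 2 * derivative c) *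
        x⁻¹ ^ n := by
      have h2 : y / x ^ n = y * x⁻¹ ^ n := by rw [div_eq_mul_inv, inv_pow]
      have h3 : V (x⁻¹ ^ n) = n * x * x⁻¹ ^ n := by
        rw [Derivation.leibniz_pow, der_inv F, hx1, smul_eq_mul, nsmul_eq_mul]
        rcases n with _ | r
        · simp
        · rw [Nat.add_sub_cancel]
          have h4 : x⁻¹ ^ (r + 1) = x⁻¹ ^ r * x⁻¹ := pow_succ _ _
          rw [h4]
          field_simp
      rw [h2, Derivation.leibniz, h3, hy1, one_mul, smul_eq_mul, smul_eq_mul, map_sub, map_mul,
        map_mul, map_mul, map_pow, aeval_X, aeval_C, map_natCast]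
      ring
    rw [h1]
    refine inv_mem h0 ?_
    rw [natDegree_le_iff_coeff_eq_zero]
    intro N hN
    obtain ⟨r, rfl⟩ : ∃ r, N = r + 1 := ⟨N - 1, by omega⟩
    have hr : n ≤ r := by omega
    rw [coeff_sub, coeff_C_mul, coeff_X_mul]
    rcases r with _ | r
    · have hn : n = 0 := by omega
      have h5 : (X ^ 2 * derivative c : ℂ[X]).coeff (0 + 1) = 0 := by
        rw [coeff_X_pow_mul', if_neg (by norm_num)]
      rw [h5, hn]
      simp
    · have h5 : (X ^ 2 * derivative c : ℂ[X]).coeff (r + 1 + 1) = (r + 1) * c.coeff (r + 1) := by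
        have h6 := coeff_X_pow_mul (derivative c) 2 r
        rw [h6, coeff_derivative]
        ring
      rw [h5]
      rcases Nat.lt_or_ge n (r + 1) with h7 | h7
      · rw [coeff_eq_zero_of_natDegree_lt (lt_of_le_of_lt H.deg h7)]
        ring
      · have h8 : n = r + 1 := by omega
        rw [h8]
        push_cast
        ring

end frame

end Pool.Agent.Helper11K9.TH
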